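import Mathlib

set_option autoImplicit false

/-! Weighted nibble with test functions: elementary inequalities and counting. -/

namespace Nib

open Finset

theorem exp_le_quad (y : ℝ) (hy : |y| ≤ 1) : Real.exp y ≤ 1 + y + y ^ 2 := by
  have h := Real.abs_exp_sub_one_sub_id_le hy
  have := (abs_le.mp h).2
  linarith

/-- exponential moment estimate for one step -/
theorem expo {I : Type*} (s : Finset I) (p D : I → ℝ) (lam d v dl : ℝ)
    (hp : ∀ i ∈ s, 0 ≤ p i) (hp1 : ∑ i ∈ s, p i ≤ 1) (hl : 0 ≤ lam)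
    (hb : ∀ i ∈ s, |lam * D i| ≤ 1)
    (hd : ∑ i ∈ s, p i * D i ≤ d) (hv : ∑ i ∈ s, p i * (D i) ^ 2 ≤ v)
    (hdl : d + lam * v ≤ dl) :
    ∑ i ∈ s, p i * Real.exp (lam * (D i - dl)) ≤ 1 := by
  have h1 : ∀ i ∈ s, p i * Real.exp (lam * (D i - dl)) ≤
      Real.exp (-(lam * dl)) * (p i + lam * (p i * D i) + lam ^ 2 * (p i * (D i) ^ 2)) := by
    intro i hi
    have h2 : Real.exp (lam * (D i - dl)) = Real.exp (-(lam * dl)) * Real.exp (lam * D i) := by
      rw [← Real.exp_add]; congr 1; ring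
    rw [h2]
    have h3 := exp_le_quad _ (hb i hi)
    have hpi := hp i hi
    have he := Real.exp_pos (-(lam * dl))
    calc p i * (Real.exp (-(lam * dl)) * Real.exp (lam * D i))
        = Real.exp (-(lam * dl)) * (p i * Real.exp (lam * D i)) := by ring
      _ ≤ Real.exp (-(lam * dl)) * (p i * (1 + lam * D i + (lam * D i) ^ 2)) := by gcongr
      _ = _ := by ring
  refine (Finset.sum_le_sum h1).trans ?_
  rw [← Finset.mul_sum, Finset.sum_add_distrib, Finset.sum_add_distrib, ← Finset.mul_sum,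
    ← Finset.mul_sum]
  have he := Real.exp_pos (-(lam * dl))
  have h4 : ∑ i ∈ s, p i + lam * ∑ i ∈ s, p i * D i + lam ^ 2 * ∑ i ∈ s, p i * (D i) ^ 2
      ≤ 1 + lam * dl := by
    have a1 : lam * ∑ i ∈ s, p i * D i ≤ lam * d := by gcongr
    have a2 : lam ^ 2 * ∑ i ∈ s, p i * (D i) ^ 2 ≤ lam ^ 2 * v := by gcongr
    have a3 : lam * (d + lam * v) ≤ lam * dl := by gcongr
    nlinarith
  have h5 : 1 + lam * dl ≤ Real.exp (lam * dl) := by
    have := Real.add_one_le_exp (lam * dl); linarith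
  calc _ ≤ Real.exp (-(lam * dl)) * Real.exp (lam * dl) := by
        gcongr; exact h4.trans h5
    _ = 1 := by rw [← Real.exp_add]; simp

/-- a weighted average that is at most `B` has a term at most `B` -/
theorem exists_le_avg {I : Type*} (s : Finset I) (p f : I → ℝ) (B : ℝ)
    (hp : ∀ i ∈ s, 0 ≤ p i) (hp1 : ∑ i ∈ s, p i = 1)
    (hB : ∑ i ∈ s, p i * f i ≤ B) : ∃ i ∈ s, f i ≤ B := by
  by_contra hcon
  push Not at hcon
  have h1 : ∑ i ∈ s, p i * B < ∑ i ∈ s, p i * f i := by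
    have hne : ∃ i ∈ s, 0 < p i := by
      by_contra hc
      push Not at hc
      have : ∑ i ∈ s, p i ≤ 0 := Finset.sum_nonpos hc
      linarith
    obtain ⟨i, hi, hpi⟩ := hne
    apply Finset.sum_lt_sum
    · intro j hj
      have := hcon j hj
      have := hp j hj
      nlinarith
    · exact ⟨i, hi, by have := hcon i hi; nlinarith⟩
  rw [← Finset.sum_mul, hp1, one_mul] at h1
  linarith

/-! power estimates for `θ = 1 + h` -/

theorem pow_lower (h : ℝ) (hh : 0 ≤ h) (m : ℕ) : 1 + m * h ≤ (1 + h) ^ m := by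
  have := one_add_mul_le_pow (a := h) (by linarith) m
  linarith

theorem pow_upper (h : ℝ) (hh : 0 ≤ h) (m : ℕ) (K : ℝ) (hm : (m : ℝ) ≤ K) (hK : K * h ≤ 1) :
    (1 + h) ^ m ≤ 1 + m * h + (m * h) * (K * h) := by
  have h0 : 0 ≤ (m : ℝ) * h := by positivity
  have h1 : (1 + h) ^ m ≤ Real.exp (m * h) := by
    have : 1 + h ≤ Real.exp h := by have := Real.add_one_le_exp h; linarith
    calc (1 + h) ^ m ≤ (Real.exp h) ^ m := by gcongr
      _ = Real.exp (m * h) := by rw [← Real.exp_nat_mul]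
  have hmh : (m : ℝ) * h ≤ K * h := by gcongr
  have h2 := exp_le_quad (m * h) (by rw [abs_of_nonneg h0]; linarith)
  have h3 : ((m : ℝ) * h) ^ 2 ≤ (m * h) * (K * h) := by
    rw [sq]; gcongr
  linarith

end Nib
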