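import Pool.Agent.Nib.Basic

set_option autoImplicit false

/-! Weighted nibble: alive edges, weighted degrees, hits. -/

namespace Nib

open Finset

variable {V E : Type*} [DecidableEq V] [Fintype E]

/-- edges contained in `A` -/
def alive (inc : E → Finset V) (A : Finset V) : Finset E :=
  univ.filter (fun e => inc e ⊆ A)

/-- alive edges at `x` -/
def star (inc : E → Finset V) (A : Finset V) (x : V) : Finset E :=
  (alive inc A).filter (fun e => x ∈ inc e)

/-- weighted degree -/
def S (inc : E → Finset V) (u : E → ℝ) (A : Finset V) (x : V) : ℝ :=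
  ∑ e ∈ star inc A x, u e

/-- weight of the alive edges that avoid `x` and meet `B` -/
def Nb (inc : E → Finset V) (u : E → ℝ) (A : Finset V) (x : V) (B : Finset V) : ℝ :=
  ∑ f ∈ (alive inc A).filter (fun f => x ∉ inc f ∧ ¬ Disjoint B (inc f)), u f

/-- the codegree hypothesis -/
def Codeg (inc : E → Finset V) (u : E → ℝ) (mu : ℝ) : Prop :=
  ∀ x y : V, x ≠ y → ∑ e ∈ univ.filter (fun e => x ∈ inc e ∧ y ∈ inc e), u e ≤ mu

theorem mem_alive {inc : E → Finset V} {A : Finset V} {e : E} :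
    e ∈ alive inc A ↔ inc e ⊆ A := by simp [alive]

theorem mem_star {inc : E → Finset V} {A : Finset V} {x : V} {e : E} :
    e ∈ star inc A x ↔ inc e ⊆ A ∧ x ∈ inc e := by simp [star, mem_alive]

theorem S_nonneg {inc : E → Finset V} {u : E → ℝ} (hu : ∀ e, 0 ≤ u e) (A : Finset V) (x : V) :
    0 ≤ S inc u A x := Finset.sum_nonneg (fun e _ => hu e)

/-- swap of summation -/
theorem sum_card_swap (inc : E → Finset V) (u : E → ℝ) (F : Finset E) (B : Finset V) :
    ∑ f ∈ F, u f * (∑ y ∈ B, if y ∈ inc f then (1 : ℝ) else 0) =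
      ∑ y ∈ B, ∑ f ∈ F.filter (fun f => y ∈ inc f), u f := by
  simp_rw [Finset.mul_sum]
  rw [Finset.sum_comm]
  refine Finset.sum_congr rfl (fun y _ => ?_)
  rw [Finset.sum_filter]
  refine Finset.sum_congr rfl (fun f _ => ?_)
  split_ifs <;> simp

theorem Nb_upper (inc : E → Finset V) (u : E → ℝ) (hu : ∀ e, 0 ≤ u e) (A : Finset V) (x : V)
    (B : Finset V) :
    Nb inc u A x B ≤ ∑ y ∈ B.erase x, S inc u A y := by
  unfold Nb
  have h1 : ∑ y ∈ B.erase x, S inc u A y =
      ∑ f ∈ alive inc A, u f * (∑ y ∈ B.erase x, if y ∈ inc f then (1 : ℝ) else 0) := by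
    rw [sum_card_swap]; rfl
  rw [h1, Finset.sum_filter]
  refine Finset.sum_le_sum (fun f _ => ?_)
  have hn : (0 : ℝ) ≤ ∑ y ∈ B.erase x, if y ∈ inc f then (1 : ℝ) else 0 :=
    Finset.sum_nonneg (fun y _ => by split_ifs <;> norm_num)
  split_ifs with hc
  · obtain ⟨hx, hd⟩ := hc
    rw [Finset.not_disjoint_iff] at hd
    obtain ⟨y, hyB, hyf⟩ := hd
    have hyx : y ≠ x := fun h => hx (h ▸ hyf)
    have h2 : (1 : ℝ) ≤ ∑ y ∈ B.erase x, if y ∈ inc f then (1 : ℝ) else 0 := by
      have := Finset.single_le_sum (f := fun y => if y ∈ inc f then (1 : ℝ) else 0)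
        (fun z _ => by positivity) (Finset.mem_erase.mpr ⟨hyx, hyB⟩)
      simpa [hyf] using this
    have := hu f
    nlinarith
  · exact mul_nonneg (hu f) hn

/-- pointwise Bonferroni inequality -/
theorem bonf (B F : Finset V) :
    (∑ y ∈ B, if y ∈ F then (1 : ℝ) else 0) ≤
      (if ¬ Disjoint B F then (1 : ℝ) else 0) +
        ∑ y ∈ B, ∑ z ∈ B.erase y, if y ∈ F ∧ z ∈ F then (1 : ℝ) else 0 := by
  by_cases h2 : 2 ≤ (B ∩ F).card
  · have h3 : (∑ y ∈ B, if y ∈ F then (1 : ℝ) else 0) ≤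
        ∑ y ∈ B, ∑ z ∈ B.erase y, if y ∈ F ∧ z ∈ F then (1 : ℝ) else 0 := by
      refine Finset.sum_le_sum (fun y hy => ?_)
      split_ifs with hyF
      · obtain ⟨z, hz, hzy⟩ := Finset.exists_mem_ne (by omega : 1 < (B ∩ F).card) y
        rw [Finset.mem_inter] at hz
        have := Finset.single_le_sum (f := fun z => if y ∈ F ∧ z ∈ F then (1 : ℝ) else 0)
          (fun z _ => by positivity) (Finset.mem_erase.mpr ⟨hzy, hz.1⟩)
        simpa [hyF, hz.2] using this
      · exact Finset.sum_nonneg (fun z _ => by positivity)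
    have h4 : (0 : ℝ) ≤ (if ¬ Disjoint B F then (1 : ℝ) else 0) := by positivity
    linarith
  · push Not at h2
    have h5 : (∑ y ∈ B, if y ∈ F then (1 : ℝ) else 0) = ((B ∩ F).card : ℝ) := by
      rw [← Finset.sum_filter, Finset.filter_mem_eq_inter]; simp
    have h6 : (0 : ℝ) ≤ ∑ y ∈ B, ∑ z ∈ B.erase y, if y ∈ F ∧ z ∈ F then (1 : ℝ) else 0 :=
      Finset.sum_nonneg (fun y _ => Finset.sum_nonneg (fun z _ => by positivity))
    have h7 : ((B ∩ F).card : ℝ) ≤ (if ¬ Disjoint B F then (1 : ℝ) else 0) := by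
      by_cases hd : Disjoint B F
      · rw [if_neg (not_not.mpr hd)]
        rw [Finset.disjoint_iff_inter_eq_empty] at hd
        simp [hd]
      · rw [if_pos hd]
        exact_mod_cast (by omega : (B ∩ F).card ≤ 1)
    rw [h5]; linarith

theorem Nb_lower (inc : E → Finset V) (u : E → ℝ) (hu : ∀ e, 0 ≤ u e) (A : Finset V) (x : V)
    (B : Finset V) (hx : x ∈ B) (r mu : ℝ) (hmu : 0 ≤ mu) (hB : B ⊆ A)
    (hS : ∀ y ∈ A, 1 - r ≤ S inc u A y) (hco : Codeg inc u mu) (m : ℕ) (hm : B.card = m + 1)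
    (K : ℝ) (hK : (m : ℝ) ≤ K) :
    (m : ℝ) * (1 - r - K * mu) ≤ Nb inc u A x B := by
  set B' := B.erase x with hB'
  have hc : B'.card = m := by rw [hB', Finset.card_erase_of_mem hx]; omega
  set F := (alive inc A).filter (fun f => x ∉ inc f) with hF
  have hNb : Nb inc u A x B = ∑ f ∈ F, u f * (if ¬ Disjoint B' (inc f) then (1 : ℝ) else 0) := by
    unfold Nb
    rw [hF, Finset.sum_filter, Finset.sum_filter]
    refine Finset.sum_congr rfl (fun f _ => ?_)
    by_cases hxf : x ∈ inc f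
    · simp [hxf]
    · have : Disjoint B' (inc f) ↔ Disjoint B (inc f) := by
        rw [Finset.disjoint_left, Finset.disjoint_left]
        constructor
        · intro h y hy
          by_cases hyx : y = x
          · rw [hyx]; exact hxf
          · exact h (Finset.mem_erase.mpr ⟨hyx, hy⟩)
        · intro h y hy; exact h (Finset.mem_of_mem_erase hy)
      simp only [hxf, not_false_eq_true, true_and, this, if_true]
      split_ifs <;> simp
  rw [hNb]
  have h1 : ∑ f ∈ F, u f * (∑ y ∈ B', if y ∈ inc f then (1 : ℝ) else 0) ≤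
      ∑ f ∈ F, u f * (if ¬ Disjoint B' (inc f) then (1 : ℝ) else 0) +
      ∑ f ∈ F, u f * (∑ y ∈ B', ∑ z ∈ B'.erase y, if y ∈ inc f ∧ z ∈ inc f then (1 : ℝ) else 0) := by
    rw [← Finset.sum_add_distrib]
    refine Finset.sum_le_sum (fun f _ => ?_)
    rw [← mul_add]
    exact mul_le_mul_of_nonneg_left (bonf B' (inc f)) (hu f)
  have h2 : ∑ f ∈ F, u f * (∑ y ∈ B', ∑ z ∈ B'.erase y,
      if y ∈ inc f ∧ z ∈ inc f then (1 : ℝ) else 0) ≤ (m : ℝ) * ((m : ℝ) - 1) * mu := by
    have h21 : ∑ f ∈ F, u f * (∑ y ∈ B', ∑ z ∈ B'.erase y,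
        if y ∈ inc f ∧ z ∈ inc f then (1 : ℝ) else 0) =
        ∑ y ∈ B', ∑ z ∈ B'.erase y, ∑ f ∈ F, u f * (if y ∈ inc f ∧ z ∈ inc f then (1 : ℝ) else 0) := by
      simp_rw [Finset.mul_sum]
      rw [Finset.sum_comm]
      refine Finset.sum_congr rfl (fun y _ => ?_)
      rw [Finset.sum_comm]
    rw [h21]
    have h22 : ∀ y ∈ B', ∑ z ∈ B'.erase y, ∑ f ∈ F, u f *
        (if y ∈ inc f ∧ z ∈ inc f then (1 : ℝ) else 0) ≤ ((m : ℝ) - 1) * mu := by
      intro y hy
      have h23 : ∀ z ∈ B'.erase y, ∑ f ∈ F, u f *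
        (if y ∈ inc f ∧ z ∈ inc f then (1 : ℝ) else 0) ≤ mu := by
        intro z hz
        refine le_trans ?_ (hco y z (Finset.ne_of_mem_erase hz).symm)
        have h24 : ∑ e ∈ univ.filter (fun e => y ∈ inc e ∧ z ∈ inc e), u e =
            ∑ e, u e * (if y ∈ inc e ∧ z ∈ inc e then (1 : ℝ) else 0) := by
          rw [Finset.sum_filter]
          refine Finset.sum_congr rfl (fun f _ => ?_)
          split_ifs <;> simp
        rw [h24]
        exact Finset.sum_le_sum_of_subset_of_nonneg (Finset.subset_univ _)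
          (fun f _ _ => mul_nonneg (hu f) (by positivity))
      refine (Finset.sum_le_sum h23).trans ?_
      rw [Finset.sum_const, nsmul_eq_mul, Finset.card_erase_of_mem hy, hc]
      have hm1 : 1 ≤ m := by rw [← hc]; exact Finset.card_pos.mpr ⟨y, hy⟩
      rw [Nat.cast_sub hm1]; simp
    refine (Finset.sum_le_sum h22).trans ?_
    rw [Finset.sum_const, nsmul_eq_mul, hc]
    exact le_of_eq (by ring)
  have h3 : (m : ℝ) * (1 - r - mu) ≤
      ∑ f ∈ F, u f * (∑ y ∈ B', if y ∈ inc f then (1 : ℝ) else 0) := by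
    rw [sum_card_swap]
    have h31 : ∀ y ∈ B', 1 - r - mu ≤ ∑ f ∈ F.filter (fun f => y ∈ inc f), u f := by
      intro y hy
      have hyA : y ∈ A := hB (Finset.mem_of_mem_erase hy)
      have hyx : y ≠ x := Finset.ne_of_mem_erase hy
      have h32 : S inc u A y ≤ ∑ f ∈ F.filter (fun f => y ∈ inc f), u f +
          ∑ f ∈ univ.filter (fun e => x ∈ inc e ∧ y ∈ inc e), u f := by
        unfold S star
        rw [hF, Finset.filter_filter, Finset.sum_filter, Finset.sum_filter, Finset.sum_filter]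
        calc ∑ a ∈ alive inc A, (if y ∈ inc a then u a else 0)
            ≤ ∑ a ∈ alive inc A, ((if x ∉ inc a ∧ y ∈ inc a then u a else 0) +
                (if x ∈ inc a ∧ y ∈ inc a then u a else 0)) := by
              refine Finset.sum_le_sum (fun f _ => ?_)
              have := hu f
              by_cases h1 : y ∈ inc f <;> by_cases h2 : x ∈ inc f <;> simp [h1, h2]
          _ = _ := Finset.sum_add_distrib
          _ ≤ _ := by
              gcongr
              · intro f _ _; have := hu f; positivity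
              · exact Finset.subset_univ _
      have := hS y hyA
      have := hco x y (Ne.symm hyx)
      linarith
    calc (m : ℝ) * (1 - r - mu) = ∑ y ∈ B', (1 - r - mu) := by
          rw [Finset.sum_const, nsmul_eq_mul, hc]
      _ ≤ _ := Finset.sum_le_sum h31
  have h4 : (m : ℝ) * ((m : ℝ) * mu) ≤ (m : ℝ) * (K * mu) := by gcongr
  nlinarith

end Nib
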