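import Pool.Agent.Nib.Count

set_option autoImplicit false

/-! Weighted nibble: the one-step drift of the weighted degree. -/

namespace Nib

open Finset

variable {V E : Type*} [DecidableEq V] [Fintype E]

/-- exponent of the reweighting -/
def mm (inc : E → Finset V) (e : E) : ℕ := (inc e).card - 1

def Pp (inc : E → Finset V) (u : E → ℝ) (A : Finset V) (x : V) : ℝ :=
  ∑ e ∈ star inc A x, u e * (mm inc e : ℝ)

def Gg (inc : E → Finset V) (u : E → ℝ) (h : ℝ) (A : Finset V) (x : V) : ℝ :=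
  ∑ e ∈ star inc A x, u e * ((1 + h) ^ (mm inc e) - 1)

def Hit (inc : E → Finset V) (u : E → ℝ) (h : ℝ) (A : Finset V) (x : V) (B : Finset V) : ℝ :=
  ∑ e ∈ (star inc A x).filter (fun e => ¬ Disjoint (inc e) B), u e * (1 + h) ^ (mm inc e)

theorem star_sdiff (inc : E → Finset V) (A : Finset V) (x : V) (B : Finset V) :
    star inc (A \ B) x = (star inc A x).filter (fun e => Disjoint (inc e) B) := by
  ext e
  simp only [mem_star, Finset.mem_filter, Finset.subset_sdiff]
  tauto

theorem S_diff (inc : E → Finset V) (u : E → ℝ) (h : ℝ) (A : Finset V) (x : V) (B : Finset V) :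
    S inc (fun e => u e * (1 + h) ^ (mm inc e)) (A \ B) x - S inc u A x =
      Gg inc u h A x - Hit inc u h A x B := by
  unfold S Gg Hit
  rw [star_sdiff]
  have h1 := Finset.sum_filter_add_sum_filter_not (star inc A x)
    (fun e => Disjoint (inc e) B) (fun e => u e * (1 + h) ^ (mm inc e))
  have h2 : ∑ e ∈ star inc A x, u e * ((1 + h) ^ (mm inc e) - 1) =
      ∑ e ∈ star inc A x, u e * (1 + h) ^ (mm inc e) - ∑ e ∈ star inc A x, u e := by
    rw [← Finset.sum_sub_distrib]
    exact Finset.sum_congr rfl (fun e _ => by ring)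
  rw [h2]
  linarith

theorem mm_le (inc : E → Finset V) (K : ℝ) (hK1 : 0 ≤ K) (hc : ∀ e, ((inc e).card : ℝ) ≤ K) (e : E) :
    (mm inc e : ℝ) ≤ K := by
  refine le_trans ?_ (hc e)
  exact_mod_cast Nat.sub_le _ _

section

variable (inc : E → Finset V) (u : E → ℝ) (hu : ∀ e, 0 ≤ u e) (A : Finset V) (x : V)
  (K : ℝ) (hK : 1 ≤ K) (hc : ∀ e, ((inc e).card : ℝ) ≤ K) (h : ℝ) (hh : 0 ≤ h) (hKh : 2 * K * h ≤ 1)

include hu hK hc in
theorem Pp_le : Pp inc u A x ≤ K * S inc u A x := by
  unfold Pp S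
  rw [Finset.mul_sum]
  refine Finset.sum_le_sum (fun e _ => ?_)
  have := mm_le inc K (by linarith) hc e
  have := hu e
  nlinarith

include hu in
theorem Pp_nonneg : 0 ≤ Pp inc u A x :=
  Finset.sum_nonneg (fun e _ => mul_nonneg (hu e) (by positivity))

include hu hh in
theorem Gg_lower : h * Pp inc u A x ≤ Gg inc u h A x := by
  unfold Pp Gg
  rw [Finset.mul_sum]
  refine Finset.sum_le_sum (fun e _ => ?_)
  have := pow_lower h hh (mm inc e)
  have := hu e
  nlinarith

include hu hK hc hh hKh in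
theorem Gg_upper : Gg inc u h A x ≤ h * Pp inc u A x * (1 + K * h) := by
  unfold Pp Gg
  rw [Finset.mul_sum, Finset.sum_mul]
  refine Finset.sum_le_sum (fun e _ => ?_)
  have := pow_upper h hh (mm inc e) K (mm_le inc K (by linarith) hc e) (by nlinarith)
  have h1 := hu e
  calc u e * ((1 + h) ^ (mm inc e) - 1) ≤ u e * ((mm inc e : ℝ) * h + ((mm inc e : ℝ) * h) * (K * h)) := by
        gcongr; linarith
    _ = _ := by ring

include hK hc hh hKh in
theorem pow_le_two (e : E) : (1 + h) ^ (mm inc e) ≤ 1 + 2 * K * h := by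
  have h1 := mm_le inc K (by linarith) hc e
  have h2 := pow_upper h hh (mm inc e) K h1 (by nlinarith)
  have h3 : (mm inc e : ℝ) * h ≤ K * h := by gcongr
  have h4 : ((mm inc e : ℝ) * h) * (K * h) ≤ (K * h) * 1 := by
    gcongr
    linarith
  linarith

include hu hK hc hh hKh in
theorem Hit_nonneg_le (mu : ℝ) (hco : Codeg inc u mu) (B : Finset V)
    (hB : (B.card : ℝ) ≤ K) (hxB : x ∉ B) (hmu : 0 ≤ mu) :
    0 ≤ Hit inc u h A x B ∧ Hit inc u h A x B ≤ 2 * K * mu := by
  constructor
  · exact Finset.sum_nonneg (fun e _ => mul_nonneg (hu e) (by positivity))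
  · have h1 : Hit inc u h A x B ≤
        ∑ y ∈ B, ∑ e ∈ univ.filter (fun e => x ∈ inc e ∧ y ∈ inc e), 2 * u e := by
      unfold Hit
      have h2 : ∑ y ∈ B, ∑ e ∈ univ.filter (fun e => x ∈ inc e ∧ y ∈ inc e), 2 * u e =
          ∑ e, ∑ y ∈ B, if x ∈ inc e ∧ y ∈ inc e then 2 * u e else 0 := by
        rw [Finset.sum_comm]
        refine Finset.sum_congr rfl (fun y _ => ?_)
        rw [Finset.sum_filter]
      rw [h2]
      have h3 : ∀ e ∈ (star inc A x).filter (fun e => ¬ Disjoint (inc e) B),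
          u e * (1 + h) ^ (mm inc e) ≤ ∑ y ∈ B, if x ∈ inc e ∧ y ∈ inc e then 2 * u e else 0 := by
        intro e he
        rw [Finset.mem_filter, mem_star, Finset.not_disjoint_iff] at he
        obtain ⟨⟨_, hxe⟩, y, hye, hyB⟩ := he
        have h4 := Finset.single_le_sum (f := fun y => if x ∈ inc e ∧ y ∈ inc e then 2 * u e else 0)
          (fun z _ => by have := hu e; positivity) hyB
        have h5 : u e * (1 + h) ^ (mm inc e) ≤ 2 * u e := by
          have := pow_le_two inc K hK hc h hh hKh e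
          have := hu e
          nlinarith
        refine h5.trans ?_
        simpa [hxe, hye] using h4
      refine (Finset.sum_le_sum h3).trans ?_
      exact Finset.sum_le_sum_of_subset_of_nonneg (Finset.subset_univ _)
        (fun e _ _ => Finset.sum_nonneg (fun y _ => by have := hu e; positivity))
    refine h1.trans ?_
    have h6 : ∀ y ∈ B, ∑ e ∈ univ.filter (fun e => x ∈ inc e ∧ y ∈ inc e), 2 * u e ≤ 2 * mu := by
      intro y hy
      rw [← Finset.mul_sum]
      have := hco x y (fun hxy => hxB (hxy ▸ hy))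
      linarith
    refine (Finset.sum_le_sum h6).trans ?_
    rw [Finset.sum_const, nsmul_eq_mul]
    nlinarith

/-- swap in the expected hit -/
theorem EH_eq : ∑ f ∈ (alive inc A).filter (fun f => x ∉ inc f), u f * Hit inc u h A x (inc f) =
    ∑ e ∈ star inc A x, u e * (1 + h) ^ (mm inc e) * Nb inc u A x (inc e) := by
  unfold Hit Nb
  simp_rw [Finset.mul_sum]
  have h1 : ∀ f, ∑ e ∈ (star inc A x).filter (fun e => ¬ Disjoint (inc e) (inc f)),
      u f * (u e * (1 + h) ^ (mm inc e)) =
      ∑ e ∈ star inc A x, if ¬ Disjoint (inc e) (inc f) then u f * (u e * (1 + h) ^ (mm inc e)) else 0 := by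
    intro f; rw [Finset.sum_filter]
  simp_rw [h1]
  rw [Finset.sum_comm]
  refine Finset.sum_congr rfl (fun e _ => ?_)
  rw [← Finset.filter_filter, Finset.sum_filter (s := (alive inc A).filter (fun f => x ∉ inc f))]
  refine Finset.sum_congr rfl (fun f _ => ?_)
  split_ifs
  · rfl
  · ring

include hu hK hc hh hKh in
theorem EH_bounds (r mu : ℝ) (hmu : 0 ≤ mu) (hco : Codeg inc u mu) (hr : 0 ≤ r)
    (hSl : ∀ y ∈ A, 1 - r ≤ S inc u A y) (hSu : ∀ y ∈ A, S inc u A y ≤ 1 + r)
    (hrmu : 0 ≤ 1 - r - K * mu) :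
    Pp inc u A x * (1 - r - K * mu) ≤
      ∑ f ∈ (alive inc A).filter (fun f => x ∉ inc f), u f * Hit inc u h A x (inc f) ∧
    ∑ f ∈ (alive inc A).filter (fun f => x ∉ inc f), u f * Hit inc u h A x (inc f) ≤
      Pp inc u A x * (1 + r) * (1 + 2 * K * h) := by
  rw [EH_eq]
  constructor
  · unfold Pp
    rw [Finset.sum_mul]
    refine Finset.sum_le_sum (fun e he => ?_)
    rw [mem_star] at he
    have hcp : 0 < (inc e).card := Finset.card_pos.mpr ⟨x, he.2⟩
    have h1 := Nb_lower inc u hu A x (inc e) he.2 r mu hmu he.1 hSl hco (mm inc e)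
      (by unfold mm; omega) K (mm_le inc K (by linarith) hc e)
    have h2 := pow_lower h hh (mm inc e)
    have h3 : 1 ≤ (1 + h) ^ (mm inc e) := by
      have : 0 ≤ (mm inc e : ℝ) * h := by positivity
      linarith
    have h4 : 0 ≤ (mm inc e : ℝ) * (1 - r - K * mu) := by positivity
    have h5 := hu e
    calc u e * (mm inc e : ℝ) * (1 - r - K * mu) = u e * 1 * ((mm inc e : ℝ) * (1 - r - K * mu)) := by ring
      _ ≤ u e * (1 + h) ^ (mm inc e) * Nb inc u A x (inc e) := by gcongr
  · unfold Pp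
    rw [Finset.sum_mul, Finset.sum_mul]
    refine Finset.sum_le_sum (fun e he => ?_)
    rw [mem_star] at he
    have hcp : 0 < (inc e).card := Finset.card_pos.mpr ⟨x, he.2⟩
    have h1 := Nb_upper inc u hu A x (inc e)
    have h6 : ∑ y ∈ (inc e).erase x, S inc u A y ≤ (mm inc e : ℝ) * (1 + r) := by
      calc ∑ y ∈ (inc e).erase x, S inc u A y ≤ ∑ y ∈ (inc e).erase x, (1 + r) :=
            Finset.sum_le_sum (fun y hy => hSu y (he.1 (Finset.mem_of_mem_erase hy)))
        _ = _ := by
            rw [Finset.sum_const, nsmul_eq_mul, Finset.card_erase_of_mem he.2]; rfl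
    have h2 := pow_le_two inc K hK hc h hh hKh e
    have h5 := hu e
    have h7 : 0 ≤ Nb inc u A x (inc e) := Finset.sum_nonneg (fun f _ => hu f)
    calc u e * (1 + h) ^ (mm inc e) * Nb inc u A x (inc e)
        ≤ u e * (1 + 2 * K * h) * ((mm inc e : ℝ) * (1 + r)) := by
          gcongr
          exact h1.trans h6
      _ = _ := by ring

end

end Nib
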