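import Pool.Agent.Nib.Main

set_option autoImplicit false

/-! Weighted nibble with test functions: the final statement. -/

namespace Nib

open Finset

theorem exp_half_le (h : ℝ) (h0 : 0 ≤ h) (h1 : h ≤ 1) : Real.exp (h / 2) ≤ 1 + h := by
  have := exp_le_quad (h / 2) (by rw [abs_of_nonneg (by linarith)]; linarith)
  nlinarith

/-- existence of the threshold -/
theorem exists_thr (c : ℝ) (hc : 0 < c) (B : ℕ) : ∃ x0 : ℝ, 1 ≤ x0 ∧ ∀ x, x0 ≤ x →
    2 * x ^ B * Real.exp (-(c * x)) < 1 / 2 := by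
  have h1 := Real.tendsto_pow_mul_exp_neg_atTop_nhds_zero B
  have h2 : Filter.Tendsto (fun x : ℝ => c * x) Filter.atTop Filter.atTop :=
    Filter.tendsto_id.const_mul_atTop hc
  have h3 := h1.comp h2
  have h4 : (0 : ℝ) < c ^ B / 4 := by positivity
  have h5 := (h3.eventually (gt_mem_nhds h4)).and (Filter.eventually_ge_atTop (1 : ℝ))
  obtain ⟨x0, hx0⟩ := Filter.eventually_atTop.mp h5
  refine ⟨max x0 1, le_max_right _ _, fun x hx => ?_⟩
  have h6 := (hx0 x ((le_max_left _ _).trans hx)).1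
  simp only [Function.comp] at h6
  rw [mul_pow] at h6
  have hcB : (0 : ℝ) < c ^ B := by positivity
  have h7 : c ^ B * (2 * x ^ B * Real.exp (-(c * x))) < c ^ B * (1 / 2) := by nlinarith
  exact lt_of_mul_lt_mul_left h7 hcB.le

/-- the statement -/
def NibbleStmt : Prop := ∀ (k : ℕ) (γ : ℝ), 0 < γ → ∀ A : ℕ, ∃ δ0 : ℝ, 0 < δ0 ∧
  ∀ δ : ℝ, 0 < δ → δ ≤ δ0 → ∀ (ι J Θ : Type) [Fintype ι] [DecidableEq ι] [Fintype J] [Fintype Θ]
    (E : J → Finset ι) (w : J → ℝ) (t : Θ → ι → ℝ),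
    (∀ j, (E j).Nonempty) → (∀ j, (E j).card ≤ k) → (∀ j, 0 ≤ w j) →
    (∀ x, ∑ j ∈ univ.filter (fun j => x ∈ E j), w j ≤ 1) →
    (∀ x y, x ≠ y → ∑ j ∈ univ.filter (fun j => x ∈ E j ∧ y ∈ E j), w j ≤ δ) →
    ((Fintype.card ι : ℝ) ≤ δ⁻¹ ^ A) → ((Fintype.card Θ : ℝ) ≤ δ⁻¹ ^ A) →
    (∀ θ x, 0 ≤ t θ x ∧ t θ x ≤ 1) →
    ∃ M : Finset J, (∀ j ∈ M, 0 < w j) ∧ (∀ i ∈ M, ∀ j ∈ M, i ≠ j → Disjoint (E i) (E j)) ∧
      ∀ θ, ∑ x ∈ univ.filter (fun x => ∀ j ∈ M, x ∉ E j), t θ x ≤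
        ∑ x, t θ x * (1 - ∑ j ∈ univ.filter (fun j => x ∈ E j), w j) +
          γ * (∑ x, t θ x + √(δ⁻¹))

/-- parameters -/
theorem params (K γ : ℝ) (hK : 1 ≤ K) (hγ : 0 < γ) (hγ1 : γ ≤ 1) (A : ℕ) :
    ∃ C1 Th beta δ0 s : ℝ, 0 < δ0 ∧ δ0 ≤ 1 ∧ 0 < beta ∧ 0 < Th ∧ 0 < C1 ∧ 0 < s ∧
      ∀ δ : ℝ, 0 < δ → δ ≤ δ0 → 
        4 * K * (C1 * δ) ≤ beta / 2 ∧
        2 * δ⁻¹ ^ A * Real.exp (-(beta / (40 * K * (C1 * δ)) * beta)) < 1 / 2 ∧
        2 * δ⁻¹ ^ A * Real.exp (-(beta / (12 * Th * K * √δ) * beta)) < 1 / 2 ∧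
        ∀ h : ℝ, 0 < h → h ≤ 1 → ∀ R : ℕ, s ≤ h * R → h * R ≤ s + 1 →
          (1 + h) ^ R ≤ Th ∧ 4 / γ ≤ (1 + h) ^ R ∧ rr K beta h R ≤ γ / 2 ∧
          ∀ m : ℕ, (m : ℝ) ≤ K → (1 + h) ^ (R * m) ≤ C1 := by
  set s : ℝ := 2 * Real.log (4 / γ) with hs
  have h4γ : 1 < 4 / γ := by rw [lt_div_iff₀ hγ]; linarith
  have hlog : 0 < Real.log (4 / γ) := Real.log_pos h4γ
  have hs0 : 0 < s := by positivity
  set beta : ℝ := γ / 2 * Real.exp (-(4 * K * (s + 1))) with hbeta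
  have hb0 : 0 < beta := by positivity
  set Th : ℝ := Real.exp (s + 1) with hTh
  have hTh0 : 0 < Th := Real.exp_pos _
  set C1 : ℝ := Real.exp (K * (s + 1)) with hC1
  have hC10 : 0 < C1 := Real.exp_pos _
  have hc2 : 0 < beta ^ 2 / (40 * K * C1) := by positivity
  have hc3 : 0 < beta ^ 2 / (12 * Th * K) := by positivity
  obtain ⟨x2, hx21, hx2⟩ := exists_thr _ hc2 (2 * A)
  obtain ⟨x3, hx31, hx3⟩ := exists_thr _ hc3 (2 * A)
  set x0 := max x2 x3 with hx0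
  have hx01 : 1 ≤ x0 := hx21.trans (le_max_left _ _)
  refine ⟨C1, Th, beta, min (1 / x0 ^ 2) (beta / (8 * K * C1)), s, by positivity, ?_, hb0, hTh0,
    hC10, hs0, ?_⟩
  · refine (min_le_left _ _).trans ?_
    rw [div_le_one (by positivity)]
    nlinarith
  intro δ hδ hδ0
  have hδ1 := hδ0.trans (min_le_left _ _)
  have hδ2 := hδ0.trans (min_le_right _ _)
  set x : ℝ := √(δ⁻¹) with hx
  have hxsq : x ^ 2 = δ⁻¹ := Real.sq_sqrt (by positivity)
  have hx0x : x0 ≤ x := by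
    rw [hx]
    apply Real.le_sqrt_of_sq_le
    rw [le_inv_comm₀ (by positivity) hδ]
    rw [one_div] at hδ1
    exact hδ1
  have hx1 : 1 ≤ x := hx01.trans hx0x
  have hpow : δ⁻¹ ^ A = x ^ (2 * A) := by rw [pow_mul, hxsq]
  have hsqrt : √δ = x⁻¹ := by rw [hx, Real.sqrt_inv, inv_inv]
  refine ⟨?_, ?_, ?_, ?_⟩
  · rw [le_div_iff₀ (by positivity)] at hδ2
    linarith
  · refine lt_of_le_of_lt ?_ (hx2 x ((le_max_left _ _).trans hx0x))
    rw [hpow]
    refine mul_le_mul_of_nonneg_left (Real.exp_le_exp.mpr (neg_le_neg ?_)) (by positivity)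
    have e1 : beta / (40 * K * (C1 * δ)) * beta = beta ^ 2 / (40 * K * C1) * x ^ 2 := by
      rw [hxsq]; field_simp
    rw [e1]
    have : x ≤ x ^ 2 := by nlinarith
    gcongr
  · refine lt_of_le_of_lt ?_ (hx3 x ((le_max_right _ _).trans hx0x))
    rw [hpow]
    have e1 : beta / (12 * Th * K * √δ) * beta = beta ^ 2 / (12 * Th * K) * x := by
      rw [hsqrt]
      field_simp
    rw [e1]
  · intro h hh0 hh1 R hR1 hR2
    have hexpR : (1 + h) ^ R ≤ Real.exp (h * R) := by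
      have : 1 + h ≤ Real.exp h := by have := Real.add_one_le_exp h; linarith
      calc (1 + h) ^ R ≤ (Real.exp h) ^ R := by gcongr
        _ = Real.exp (h * R) := by rw [← Real.exp_nat_mul]; ring_nf
    refine ⟨?_, ?_, ?_, ?_⟩
    · exact hexpR.trans (Real.exp_le_exp.mpr hR2)
    · have h1 := exp_half_le h hh0.le hh1
      have h2 : Real.exp (h * R / 2) ≤ (1 + h) ^ R := by
        calc Real.exp (h * R / 2) = (Real.exp (h / 2)) ^ R := by
              rw [← Real.exp_nat_mul]; ring_nf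
          _ ≤ _ := by gcongr
      refine le_trans ?_ h2
      have h3 : Real.exp (s / 2) = 4 / γ := by
        rw [hs, mul_div_cancel_left₀ _ (by norm_num : (2:ℝ) ≠ 0), Real.exp_log (by positivity)]
      rw [← h3]
      apply Real.exp_le_exp.mpr
      linarith
    · unfold rr
      have h1 : (1 + 4 * K * h) ^ R ≤ Real.exp (4 * K * (s + 1)) := by
        have : 1 + 4 * K * h ≤ Real.exp (4 * K * h) := by
          have := Real.add_one_le_exp (4 * K * h); linarith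
        calc (1 + 4 * K * h) ^ R ≤ (Real.exp (4 * K * h)) ^ R := by gcongr
          _ = Real.exp (4 * K * (h * R)) := by rw [← Real.exp_nat_mul]; ring_nf
          _ ≤ _ := by
            apply Real.exp_le_exp.mpr
            gcongr
      calc beta * (1 + 4 * K * h) ^ R ≤ beta * Real.exp (4 * K * (s + 1)) := by gcongr
        _ = γ / 2 := by
          rw [hbeta, mul_assoc, ← Real.exp_add]; simp
    · intro m hm
      rw [pow_mul]
      calc ((1 + h) ^ R) ^ m ≤ (Real.exp (h * R)) ^ m := by gcongr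
        _ = Real.exp (m * (h * R)) := by rw [← Real.exp_nat_mul]
        _ ≤ _ := by
          rw [hC1]
          apply Real.exp_le_exp.mpr
          have : 0 ≤ h * R := by positivity
          gcongr

end Nib
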