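import Pool.Agent.Nib.Step

set_option autoImplicit false

/-! Weighted nibble: exponential moments of one step for the test functions. -/

namespace Nib

open Finset

variable {V E : Type*} [DecidableEq V] [Fintype E]

theorem sum_swap (inc : E → Finset V) (u : E → ℝ) (A : Finset V) (φ : V → ℝ) :
    ∑ f ∈ alive inc A, u f * ∑ x ∈ inc f, φ x = ∑ x ∈ A, φ x * S inc u A x := by
  have h1 : ∀ f ∈ alive inc A, u f * ∑ x ∈ inc f, φ x =
      ∑ x ∈ A, if x ∈ inc f then u f * φ x else 0 := by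
    intro f hf
    rw [mem_alive] at hf
    rw [← Finset.sum_filter, Finset.mul_sum]
    refine Finset.sum_congr ?_ (fun _ _ => rfl)
    ext x
    simp only [Finset.mem_filter]
    exact ⟨fun h => ⟨hf h, h⟩, fun h => h.2⟩
  rw [Finset.sum_congr rfl h1, Finset.sum_comm]
  refine Finset.sum_congr rfl (fun x _ => ?_)
  unfold S star
  rw [← Finset.sum_filter, Finset.mul_sum]
  exact Finset.sum_congr rfl (fun f _ => by ring)

/-- swap restricted to a set of edges -/
theorem sum_swap_dm (inc : E → Finset V) (u : E → ℝ) (A : Finset V) (φ : V → ℝ)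
    (dm : E → Prop) [DecidablePred dm] :
    ∑ f ∈ alive inc A, u f * (if dm f then ∑ x ∈ inc f, φ x else 0) =
      ∑ x ∈ A, φ x * ∑ f ∈ (star inc A x).filter dm, u f := by
  have h1 : ∀ f ∈ alive inc A, u f * (if dm f then ∑ x ∈ inc f, φ x else 0) =
      ∑ x ∈ A, if x ∈ inc f ∧ dm f then u f * φ x else 0 := by
    intro f hf
    rw [mem_alive] at hf
    by_cases hd : dm f
    · simp only [hd, and_true, if_true]
      rw [← Finset.sum_filter, Finset.mul_sum]
      refine Finset.sum_congr ?_ (fun _ _ => rfl)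
      ext x
      simp only [Finset.mem_filter]
      exact ⟨fun h => ⟨hf h, h⟩, fun h => h.2⟩
    · simp [hd]
  rw [Finset.sum_congr rfl h1, Finset.sum_comm]
  refine Finset.sum_congr rfl (fun x _ => ?_)
  unfold star
  rw [Finset.filter_filter, ← Finset.sum_filter, Finset.mul_sum]
  exact Finset.sum_congr rfl (fun f _ => by ring)

theorem Bo_subset (inc : E → Finset V) (A : Finset V) (o : Option E) (ho : o ∈ Ch inc A) :
    Bo inc o ⊆ A := by
  cases o with
  | none => simp [Bo]
  | some f =>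
    unfold Ch at ho
    rw [Finset.some_mem_insertNone, mem_alive] at ho
    exact ho

section

variable (inc : E → Finset V) (u : E → ℝ) (hu : ∀ e, 0 ≤ u e) (A : Finset V)
  (K : ℝ) (hK : 1 ≤ K) (hc : ∀ e, ((inc e).card : ℝ) ≤ K) (h : ℝ) (hh : 0 ≤ h)
  (r : ℝ) (hr : 0 ≤ r) (hr2 : r ≤ 1 / 2)
  (hSl : ∀ y ∈ A, 1 - r ≤ S inc u A y) (hSu : ∀ y ∈ A, S inc u A y ≤ 1 + r)
  (hh2 : h ≤ 1 / 6)
  (hW : h * ∑ f ∈ alive inc A, u f ≤ 1)
  (g : V → ℝ) (hg : ∀ x, 0 ≤ g x) (eps : ℝ) (he0 : 0 ≤ eps) (heps : ∀ x, g x ≤ eps)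

include hc hK hg he0 heps in
omit [DecidableEq V] [Fintype E] in
theorem gBo_le (o : Option E) : 0 ≤ ∑ x ∈ Bo inc o, g x ∧ ∑ x ∈ Bo inc o, g x ≤ K * eps := by
  constructor
  · exact Finset.sum_nonneg (fun x _ => hg x)
  · have h1 : ∑ x ∈ Bo inc o, g x ≤ ∑ x ∈ Bo inc o, eps := Finset.sum_le_sum (fun x _ => heps x)
    rw [Finset.sum_const, nsmul_eq_mul] at h1
    have h2 : ((Bo inc o).card : ℝ) ≤ K := by
      cases o with
      | none => simp only [Bo, Finset.card_empty]; push_cast; linarith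
      | some f => exact hc f
    exact h1.trans (by gcongr)

include hu hK hc hh hr hr2 hSl hSu hh2 hW hg he0 heps in
/-- test functions: the alive part -/
theorem step_B (c Th : ℝ) (hc0 : 0 ≤ c) (hcT : c * (1 + h) ≤ Th) (hb : c * ∑ x ∈ A, g x ≤ 3 / 2)
    (kap : ℝ) (hk : 0 ≤ kap) (hk1 : kap * (2 * h + Th * (K * eps)) * 6 ≤ r) :
    ∑ o ∈ Ch inc A, pr inc u h A o * Real.exp (kap *
      ((c * (1 + h) * ∑ x ∈ A \ Bo inc o, g x - c * ∑ x ∈ A, g x) - 4 * K * h * r)) ≤ 1 := by
  set b := c * ∑ x ∈ A, g x with hbdef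
  have hb0 : 0 ≤ b := by
    have : 0 ≤ ∑ x ∈ A, g x := Finset.sum_nonneg (fun x _ => hg x)
    positivity
  have hpr : ∀ o, 0 ≤ pr inc u h A o := pr_nonneg inc u hu h hh A hW
  have hD : ∀ o ∈ Ch inc A, c * (1 + h) * ∑ x ∈ A \ Bo inc o, g x - b =
      h * b - c * (1 + h) * ∑ x ∈ Bo inc o, g x := by
    intro o ho
    have := Finset.sum_sdiff (f := g) (Bo_subset inc A o ho)
    rw [hbdef, ← this]; ring
  have hsum : ∑ o ∈ Ch inc A, pr inc u h A o * ∑ x ∈ Bo inc o, g x =
      h * ∑ x ∈ A, g x * S inc u A x := by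
    rw [sum_choice_all inc u h A (fun B => ∑ x ∈ B, g x), sum_swap]
    simp
  have hlow : c * (∑ x ∈ A, g x * S inc u A x) ≥ (1 - r) * b := by
    rw [hbdef]
    have h1 : (1 - r) * ∑ x ∈ A, g x ≤ ∑ x ∈ A, g x * S inc u A x := by
      rw [Finset.mul_sum]
      refine Finset.sum_le_sum (fun x hx => ?_)
      have := hSl x hx
      have := hg x
      nlinarith
    nlinarith
  have hupp : c * (∑ x ∈ A, g x * S inc u A x) ≤ (1 + r) * b := by
    rw [hbdef]
    have h1 : ∑ x ∈ A, g x * S inc u A x ≤ (1 + r) * ∑ x ∈ A, g x := by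
      rw [Finset.mul_sum]
      refine Finset.sum_le_sum (fun x hx => ?_)
      have := hSu x hx
      have := hg x
      nlinarith
    nlinarith
  set T := c * (∑ x ∈ A, g x * S inc u A x) with hT
  have hgB : ∀ o, 0 ≤ c * (1 + h) * ∑ x ∈ Bo inc o, g x ∧
      c * (1 + h) * ∑ x ∈ Bo inc o, g x ≤ Th * (K * eps) := by
    intro o
    have h1 := gBo_le inc K hK hc g hg eps he0 heps o
    constructor
    · have := h1.1; positivity
    · have : 0 ≤ c * (1 + h) := by positivity
      have h3 := h1.2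
      calc c * (1 + h) * ∑ x ∈ Bo inc o, g x ≤ c * (1 + h) * (K * eps) := by gcongr
        _ ≤ _ := by gcongr
  have hKe : 0 ≤ K * eps := by positivity
  have hTh : 0 ≤ Th := by
    have : 0 ≤ c * (1 + h) := by positivity
    linarith
  have habs : ∀ o ∈ Ch inc A, |c * (1 + h) * ∑ x ∈ A \ Bo inc o, g x - b| ≤
      2 * h + Th * (K * eps) := by
    intro o ho
    rw [hD o ho, abs_le]
    have := hgB o
    have h3 : h * b ≤ h * (3 / 2) := by gcongr
    have h4 : 0 ≤ h * b := by positivity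
    constructor <;> nlinarith
  have hmain : ∑ o ∈ Ch inc A, pr inc u h A o * (c * (1 + h) * ∑ x ∈ A \ Bo inc o, g x - b) =
      h * b - (1 + h) * h * T := by
    have h1 : ∀ o ∈ Ch inc A, pr inc u h A o * (c * (1 + h) * ∑ x ∈ A \ Bo inc o, g x - b) =
        (h * b) * pr inc u h A o - (c * (1 + h)) * (pr inc u h A o * ∑ x ∈ Bo inc o, g x) := by
      intro o ho
      rw [hD o ho]; ring
    rw [Finset.sum_congr rfl h1, Finset.sum_sub_distrib, ← Finset.mul_sum, ← Finset.mul_sum,
      pr_sum, hsum, hT]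
    ring
  have hhb : 0 ≤ h * b := by positivity
  have hhb2 : h * b ≤ h * (3 / 2) := by gcongr
  have hT0 : 0 ≤ T := by nlinarith
  refine expo _ _ _ kap (2 * K * h * r) ((2 * h + Th * (K * eps)) * (6 * h)) _ (fun o _ => hpr o)
    (by rw [pr_sum]) hk ?_ ?_ ?_ ?_
  · intro o ho
    rw [abs_mul, abs_of_nonneg hk]
    have h5 : kap * |c * (1 + h) * ∑ x ∈ A \ Bo inc o, g x - b| ≤
      kap * (2 * h + Th * (K * eps)) := by
      gcongr
      exact habs o ho
    have h6 : 0 ≤ kap * (2 * h + Th * (K * eps)) := by positivity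
    nlinarith
  · rw [hmain]
    have h7 : h * ((1 - r) * b) ≤ h * T := by gcongr
    have h8 : 0 ≤ h * (h * T) := by positivity
    have h9 : h * b * r ≤ h * (3 / 2) * r := by gcongr
    have h10 : h * r ≤ K * (h * r) := by
      have : 0 ≤ h * r := by positivity
      nlinarith
    nlinarith
  · have h1 : ∀ o ∈ Ch inc A,
        pr inc u h A o * (c * (1 + h) * ∑ x ∈ A \ Bo inc o, g x - b) ^ 2 ≤
          (2 * h + Th * (K * eps)) * (pr inc u h A o * (h * b) +
            c * (1 + h) * (pr inc u h A o * ∑ x ∈ Bo inc o, g x)) := by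
      intro o ho
      have h2 := habs o ho
      have h4 : |c * (1 + h) * ∑ x ∈ A \ Bo inc o, g x - b| ≤
          h * b + c * (1 + h) * ∑ x ∈ Bo inc o, g x := by
        rw [hD o ho, abs_le]
        have := (hgB o).1
        constructor <;> linarith
      have h5 : (c * (1 + h) * ∑ x ∈ A \ Bo inc o, g x - b) ^ 2 ≤
          (2 * h + Th * (K * eps)) * (h * b + c * (1 + h) * ∑ x ∈ Bo inc o, g x) := by
        rw [← sq_abs, sq]
        gcongr
      have := hpr o
      calc _ ≤ pr inc u h A o * ((2 * h + Th * (K * eps)) *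
            (h * b + c * (1 + h) * ∑ x ∈ Bo inc o, g x)) := by gcongr
        _ = _ := by ring
    refine (Finset.sum_le_sum h1).trans ?_
    rw [← Finset.mul_sum, Finset.sum_add_distrib, ← Finset.sum_mul, pr_sum, ← Finset.mul_sum, hsum]
    have h6 : 1 * (h * b) + c * (1 + h) * (h * ∑ x ∈ A, g x * S inc u A x) ≤ 6 * h := by
      have e1 : c * (1 + h) * (h * ∑ x ∈ A, g x * S inc u A x) = h * ((1 + h) * T) := by
        rw [hT]; ring
      rw [e1]
      have e2 : T ≤ 9 / 4 := by nlinarith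
      have e3 : (1 + h) * T ≤ (7 / 6) * (9 / 4) := by
        have : 1 + h ≤ 7 / 6 := by linarith
        gcongr
      have e4 : h * ((1 + h) * T) ≤ h * ((7 / 6) * (9 / 4)) := by gcongr
      nlinarith
    have : 0 ≤ 2 * h + Th * (K * eps) := by positivity
    gcongr
  · have h1 : h * (kap * (2 * h + Th * (K * eps)) * 6) ≤ h * r := by gcongr
    have h2 : h * r ≤ K * (h * r) := by
      have : 0 ≤ h * r := by positivity
      nlinarith
    nlinarith

include hu hK hc hh hr hr2 hSl hSu hW hg he0 heps in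
/-- test functions: the part covered by dummy edges -/
theorem step_Y (dm : E → Prop) [DecidablePred dm] (om : V → ℝ) (hom0 : ∀ x, 0 ≤ om x)
    (hom1 : ∀ x, om x ≤ 1) (hdm : ∀ x ∈ A, ∑ f ∈ (star inc A x).filter dm, u f ≤ om x)
    (hb : ∑ x ∈ A, g x ≤ 1)
    (kap : ℝ) (hk : 0 ≤ kap) (hk1 : kap * (K * eps) * 2 ≤ r) (y : Option E → ℝ)
    (hy : ∀ o, y o = (match o with
      | none => 0
      | some f => (if dm f then ∑ x ∈ inc f, g x else 0) - ∑ x ∈ inc f, g x * om x)) :
    ∑ o ∈ Ch inc A, pr inc u h A o * Real.exp (kap * (y o - 4 * K * h * r)) ≤ 1 := by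
  have hpr : ∀ o, 0 ≤ pr inc u h A o := pr_nonneg inc u hu h hh A hW
  have hyn : y none = 0 := by rw [hy]
  have hys : ∀ f, y (some f) = (if dm f then ∑ x ∈ inc f, g x else 0) - ∑ x ∈ inc f, g x * om x :=
    fun f => by rw [hy]
  have hsumC : ∀ φ : Option E → ℝ, φ none = 0 → ∑ o ∈ Ch inc A, pr inc u h A o * φ o =
      h * ∑ f ∈ alive inc A, u f * φ (some f) := by
    intro φ hφ
    unfold Ch
    rw [Finset.sum_insertNone]
    simp only [pr, hφ, mul_zero, zero_add]
    rw [Finset.mul_sum]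
    exact Finset.sum_congr rfl (fun f _ => by ring)
  have hgo : ∀ f : E, 0 ≤ ∑ x ∈ inc f, g x * om x ∧ ∑ x ∈ inc f, g x * om x ≤ ∑ x ∈ inc f, g x := by
    intro f
    constructor
    · exact Finset.sum_nonneg (fun x _ => mul_nonneg (hg x) (hom0 x))
    · refine Finset.sum_le_sum (fun x _ => ?_)
      have := hg x; have := hom1 x
      nlinarith
  have habs1 : ∀ f : E, |y (some f)| ≤ ∑ x ∈ inc f, g x := by
    intro f
    rw [hys, abs_le]
    have := hgo f
    split_ifs <;> constructor <;> linarith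
  have hgK : ∀ f : E, ∑ x ∈ inc f, g x ≤ K * eps := fun f =>
    (gBo_le inc K hK hc g hg eps he0 heps (some f)).2
  have hKe : 0 ≤ K * eps := by positivity
  have habs : ∀ o, |y o| ≤ K * eps := by
    intro o
    cases o with
    | none => rw [hyn]; simpa using hKe
    | some f => exact (habs1 f).trans (hgK f)
  have hgA : 0 ≤ ∑ x ∈ A, g x := Finset.sum_nonneg (fun x _ => hg x)
  refine expo _ _ _ kap (h * r) ((K * eps) * (2 * h)) _ (fun o _ => hpr o)
    (by rw [pr_sum]) hk ?_ ?_ ?_ ?_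
  · intro o ho
    rw [abs_mul, abs_of_nonneg hk]
    have h5 : kap * |y o| ≤ kap * (K * eps) := by
      gcongr
      exact habs o
    have h6 : 0 ≤ kap * (K * eps) := by positivity
    nlinarith
  · rw [hsumC y hyn]
    have h1 : ∑ f ∈ alive inc A, u f * y (some f) =
        ∑ x ∈ A, g x * ∑ f ∈ (star inc A x).filter dm, u f - ∑ x ∈ A, (g x * om x) * S inc u A x := by
      rw [← sum_swap_dm, ← sum_swap, ← Finset.sum_sub_distrib]
      exact Finset.sum_congr rfl (fun f _ => by rw [hys]; ring)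
    rw [h1]
    have h2 : ∑ x ∈ A, g x * ∑ f ∈ (star inc A x).filter dm, u f - ∑ x ∈ A, (g x * om x) * S inc u A x
        ≤ r * ∑ x ∈ A, g x := by
      rw [← Finset.sum_sub_distrib, Finset.mul_sum]
      refine Finset.sum_le_sum (fun x hx => ?_)
      have e1 := hdm x hx
      have e2 := hSl x hx
      have e3 := hg x
      have e4 := hom0 x
      have e5 := hom1 x
      have e6 : g x * ∑ f ∈ (star inc A x).filter dm, u f ≤ g x * om x := by gcongr
      have e7 : 0 ≤ g x * om x := by positivity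
      have e8 : (g x * om x) * (1 - r) ≤ (g x * om x) * S inc u A x := by gcongr
      have e9 : g x * om x ≤ g x := by nlinarith
      have e10 : (g x * om x) * r ≤ g x * r := by gcongr
      nlinarith
    have h3 : r * ∑ x ∈ A, g x ≤ r := by nlinarith
    exact mul_le_mul_of_nonneg_left (h2.trans h3) hh
  · rw [hsumC (fun o => (y o) ^ 2) (by simp [hyn])]
    have h1 : ∑ f ∈ alive inc A, u f * (y (some f)) ^ 2 ≤
        ∑ f ∈ alive inc A, (K * eps) * (u f * ∑ x ∈ inc f, g x) := by
      refine Finset.sum_le_sum (fun f _ => ?_)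
      have e1 : (y (some f)) ^ 2 ≤ (K * eps) * ∑ x ∈ inc f, g x := by
        rw [← sq_abs, sq]
        have := habs1 f
        have := habs (some f)
        have : 0 ≤ ∑ x ∈ inc f, g x := Finset.sum_nonneg (fun x _ => hg x)
        gcongr
      have := hu f
      calc _ ≤ u f * ((K * eps) * ∑ x ∈ inc f, g x) := by gcongr
        _ = _ := by ring
    rw [← Finset.mul_sum, sum_swap] at h1
    have h2 : ∑ x ∈ A, g x * S inc u A x ≤ 2 := by
      have : ∑ x ∈ A, g x * S inc u A x ≤ ∑ x ∈ A, g x * (1 + r) := by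
        refine Finset.sum_le_sum (fun x hx => ?_)
        have := hSu x hx
        have := hg x
        gcongr
      rw [← Finset.sum_mul] at this
      nlinarith
    have h3 : ∑ f ∈ alive inc A, u f * (y (some f)) ^ 2 ≤ K * eps * 2 := h1.trans (by gcongr)
    calc h * ∑ f ∈ alive inc A, u f * (y (some f)) ^ 2 ≤ h * (K * eps * 2) := by gcongr
      _ = _ := by ring
  · have h1 : h * (kap * (K * eps) * 2) ≤ h * r := by gcongr
    have h2 : h * r ≤ K * (h * r) := by
      have : 0 ≤ h * r := by positivity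
      nlinarith
    nlinarith

end

end Nib
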