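import Pool.Agent.Nib.Mom
import Pool.Agent.Nib.Tst

set_option autoImplicit false

/-! Weighted nibble: the potential function and the iteration. -/

namespace Nib

open Finset

variable {V E T : Type*} [DecidableEq V] [Fintype V] [Fintype E] [Fintype T]

def uu (inc : E → Finset V) (w : E → ℝ) (h : ℝ) (i : ℕ) (e : E) : ℝ :=
  w e * (1 + h) ^ (i * mm inc e)

theorem uu_succ (inc : E → Finset V) (w : E → ℝ) (h : ℝ) (i : ℕ) :
    uu inc w h (i + 1) = fun e => uu inc w h i e * (1 + h) ^ (mm inc e) := by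
  funext e
  unfold uu
  rw [mul_assoc, ← pow_add]
  congr 2
  ring

def rr (K beta h : ℝ) (i : ℕ) : ℝ := beta * (1 + 4 * K * h) ^ i

theorem rr_succ (K beta h : ℝ) (i : ℕ) :
    rr K beta h (i + 1) = rr K beta h i + 4 * K * h * rr K beta h i := by
  unfold rr; rw [pow_succ]; ring

noncomputable def Phi (inc : E → Finset V) (w : E → ℝ) (om : V → ℝ) (g : T → V → ℝ) (K beta h lam kap : ℝ)
    (i : ℕ) (A Z : Finset V) : ℝ :=
  ∑ x ∈ A, (Real.exp (lam * (S inc (uu inc w h i) A x - 1 - rr K beta h i)) +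
    Real.exp (lam * (1 - S inc (uu inc w h i) A x - rr K beta h i))) +
  ∑ t, (Real.exp (kap * ((1 + h) ^ i * ∑ x ∈ A, g t x - 1 - rr K beta h i)) +
    Real.exp (kap * (∑ x ∈ Z, g t x + ∑ x ∈ A, g t x * om x - ∑ x, g t x * om x - rr K beta h i)))

def Zo (inc : E → Finset V) (dm : E → Prop) [DecidablePred dm] : Option E → Finset V
  | none => ∅
  | some f => if dm f then inc f else ∅

section

variable (inc : E → Finset V) (w : E → ℝ) (dm : E → Prop) [DecidablePred dm] (om : V → ℝ)
  (g : T → V → ℝ) (K beta h mu Th lam kap eps : ℝ) (R : ℕ)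
  (hw : ∀ e, 0 ≤ w e) (hK : 1 ≤ K) (hc : ∀ e, ((inc e).card : ℝ) ≤ K) (hne : ∀ e, (inc e).Nonempty)
  (hh : 0 ≤ h) (hb : 0 ≤ beta) (hmu : 0 ≤ mu)
  (hco : Codeg inc (fun e => w e * (1 + h) ^ (R * mm inc e)) mu)
  (hRr : rr K beta h R ≤ 1 / 2) (hhmu : 2 * h ≤ mu) (hsm : K * mu + 6 * K * h ≤ beta / 2)
  (hV : h * (2 * (Fintype.card V : ℝ)) ≤ 1) (hTh : (1 + h) ^ R ≤ Th)
  (hdm : ∀ e, dm e → (inc e).card ≤ 1)
  (hom : ∀ x, om x = ∑ e ∈ univ.filter (fun e => x ∈ inc e ∧ dm e), w e)
  (hdeg : ∀ x, ∑ e ∈ univ.filter (fun e => x ∈ inc e), w e = 1)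
  (hg : ∀ t x, 0 ≤ g t x) (heps0 : 0 ≤ eps) (heps : ∀ t x, g t x ≤ eps) (hg1 : ∀ t, ∑ x, g t x ≤ 1)
  (hl : 0 ≤ lam) (hk : 0 ≤ kap) (hl1 : lam * (40 * K * mu) ≤ beta)
  (hk1 : kap * (2 * h + Th * (K * eps)) * 6 ≤ beta)

include hK hh hb in
omit [DecidableEq V] [Fintype V] [Fintype E] [Fintype T] [DecidablePred dm] in
theorem rr_mono (i j : ℕ) (hij : i ≤ j) : rr K beta h i ≤ rr K beta h j := by
  unfold rr
  gcongr
  have : 0 ≤ 4 * K * h := by positivity
  linarith

include hw hh in
omit [Fintype V] [Fintype T] in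
theorem codeg_uu (mu : ℝ) (hco : Codeg inc (fun e => w e * (1 + h) ^ (R * mm inc e)) mu)
    (i : ℕ) (hi : i ≤ R) : Codeg inc (uu inc w h i) mu := by
  intro x y hxy
  refine le_trans ?_ (hco x y hxy)
  refine Finset.sum_le_sum (fun e _ => ?_)
  unfold uu
  have := hw e
  have h1 : (1 + h) ^ (i * mm inc e) ≤ (1 + h) ^ (R * mm inc e) := by
    apply pow_le_pow_right₀
    · linarith
    · exact Nat.mul_le_mul_right _ hi
  gcongr

include hne in
omit [Fintype V] [Fintype T] in
theorem W_le (u : E → ℝ) (hu : ∀ e, 0 ≤ u e) (A : Finset V) :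
    ∑ f ∈ alive inc A, u f ≤ ∑ x ∈ A, S inc u A x := by
  have h1 := sum_swap inc u A (fun _ => (1 : ℝ))
  simp only [one_mul, Finset.sum_const, nsmul_eq_mul, mul_one] at h1
  rw [← h1]
  refine Finset.sum_le_sum (fun f _ => ?_)
  have h2 : (1 : ℝ) ≤ ((inc f).card : ℝ) := by
    exact_mod_cast Finset.card_pos.mpr (hne f)
  have := hu f
  nlinarith

include hw hK hc hne hh hb hmu hco hRr hhmu hsm hV hTh hdm hom hdeg hg heps0 heps hg1 hl hk hl1 hk1 in
/-- one step of the nibble -/
theorem one_step (i : ℕ) (hi : i < R) (A Z : Finset V) (hAZ : Disjoint A Z)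
    (hlt : Phi inc w om g K beta h lam kap i A Z < 1) :
    ∃ o ∈ Ch inc A, Phi inc w om g K beta h lam kap (i + 1) (A \ Bo inc o) (Z ∪ Zo inc dm o) ≤
      Phi inc w om g K beta h lam kap i A Z := by
  set r := rr K beta h i with hr
  set u := uu inc w h i with hu
  have hu0 : ∀ e, 0 ≤ u e := fun e => by rw [hu]; unfold uu; have := hw e; positivity
  have hr0 : 0 ≤ r := by rw [hr]; unfold rr; positivity
  have hrb : beta ≤ r := by
    have := rr_mono K beta h hK hh hb 0 i (Nat.zero_le _)
    have h0 : rr K beta h 0 = beta := by simp [rr]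
    rw [h0] at this; exact this
  have hr2 : r ≤ 1 / 2 := (rr_mono K beta h hK hh hb i R hi.le).trans hRr
  have hcoi : Codeg inc u mu := codeg_uu inc w h R hw hh mu hco i hi.le
  -- all the terms are below 1
  have hpos1 : ∀ x ∈ A, 0 ≤ (Real.exp (lam * (S inc u A x - 1 - r)) +
    Real.exp (lam * (1 - S inc u A x - r))) := fun x _ => by positivity
  have hpos2 : ∀ t ∈ (univ : Finset T), 0 ≤ (Real.exp (kap * ((1 + h) ^ i * ∑ x ∈ A, g t x - 1 - r)) +
    Real.exp (kap * (∑ x ∈ Z, g t x + ∑ x ∈ A, g t x * om x - ∑ x, g t x * om x - r))) :=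
    fun t _ => by positivity
  have hPhi : Phi inc w om g K beta h lam kap i A Z = ∑ x ∈ A, (Real.exp (lam * (S inc u A x - 1 - r)) +
    Real.exp (lam * (1 - S inc u A x - r))) + ∑ t, (Real.exp (kap * ((1 + h) ^ i * ∑ x ∈ A, g t x - 1 - r)) +
    Real.exp (kap * (∑ x ∈ Z, g t x + ∑ x ∈ A, g t x * om x - ∑ x, g t x * om x - r))) := rfl
  have hs1 := Finset.sum_nonneg hpos1
  have hs2 := Finset.sum_nonneg hpos2
  have hexp : ∀ (a b : ℝ), 0 ≤ a → Real.exp (a * b) < 1 → b < 0 := by
    intro a b ha hab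
    rw [Real.exp_lt_one_iff] at hab
    by_contra hcon
    push Not at hcon
    have : 0 ≤ a * b := mul_nonneg ha hcon
    linarith
  have hSb : ∀ x ∈ A, 1 - r ≤ S inc u A x ∧ S inc u A x ≤ 1 + r := by
    intro x hx
    have h1 := Finset.single_le_sum hpos1 hx
    have h2 := Real.exp_pos (lam * (S inc u A x - 1 - r))
    have h3 := Real.exp_pos (lam * (1 - S inc u A x - r))
    have h4 : Real.exp (lam * (S inc u A x - 1 - r)) < 1 := by linarith
    have h5 : Real.exp (lam * (1 - S inc u A x - r)) < 1 := by linarith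
    have h6 := hexp _ _ hl h4
    have h7 := hexp _ _ hl h5
    constructor <;> linarith
  have hBb : ∀ t, (1 + h) ^ i * ∑ x ∈ A, g t x ≤ 3 / 2 := by
    intro t
    have h1 := Finset.single_le_sum hpos2 (Finset.mem_univ t)
    have h2 := Real.exp_pos (kap * (∑ x ∈ Z, g t x + ∑ x ∈ A, g t x * om x - ∑ x, g t x * om x - r))
    have h4 : Real.exp (kap * ((1 + h) ^ i * ∑ x ∈ A, g t x - 1 - r)) < 1 := by linarith
    have := hexp _ _ hk h4
    linarith
  have hW : h * ∑ f ∈ alive inc A, u f ≤ 1 := by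
    have h1 := W_le inc hne u hu0 A
    have h2 : ∑ x ∈ A, S inc u A x ≤ ∑ x ∈ A, (2 : ℝ) :=
      Finset.sum_le_sum (fun x hx => by have := (hSb x hx).2; linarith)
    rw [Finset.sum_const, nsmul_eq_mul] at h2
    have h3 : (A.card : ℝ) ≤ Fintype.card V := by exact_mod_cast Finset.card_le_univ A
    calc h * ∑ f ∈ alive inc A, u f ≤ h * ((A.card : ℝ) * 2) := by gcongr; exact h1.trans h2
      _ ≤ h * ((Fintype.card V : ℝ) * 2) := by gcongr
      _ ≤ 1 := by linarith
  have hh6 : h ≤ 1 / 6 := by nlinarith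
  have hTh1 : 1 ≤ Th := by
    have : 1 ≤ (1 + h) ^ R := one_le_pow₀ (by linarith)
    linarith
  -- the average
  refine exists_le_avg (Ch inc A) (pr inc u h A) _ _ (fun o _ => pr_nonneg inc u hu0 h hh A hW o)
    (pr_sum inc u h A) ?_
  rw [hPhi]
  have hr' : rr K beta h (i + 1) = r + 4 * K * h * r := rr_succ K beta h i
  have hu' : uu inc w h (i + 1) = fun e => u e * (1 + h) ^ (mm inc e) := uu_succ inc w h i
  have hsplit : ∑ o ∈ Ch inc A, pr inc u h A o *
      Phi inc w om g K beta h lam kap (i + 1) (A \ Bo inc o) (Z ∪ Zo inc dm o) =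
      ∑ x ∈ A, ∑ o ∈ (Ch inc A).filter (fun o => x ∉ Bo inc o), pr inc u h A o *
        (Real.exp (lam * (S inc (uu inc w h (i + 1)) (A \ Bo inc o) x - 1 - rr K beta h (i + 1))) +
    Real.exp (lam * (1 - S inc (uu inc w h (i + 1)) (A \ Bo inc o) x - rr K beta h (i + 1)))) +
      ∑ t, ∑ o ∈ Ch inc A, pr inc u h A o *
        (Real.exp (kap * ((1 + h) ^ (i + 1) * ∑ x ∈ A \ Bo inc o, g t x - 1 - rr K beta h (i + 1))) +
    Real.exp (kap * (∑ x ∈ Z ∪ Zo inc dm o, g t x + ∑ x ∈ A \ Bo inc o, g t x * om x -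
      ∑ x, g t x * om x - rr K beta h (i + 1)))) := by
    unfold Phi
    simp_rw [mul_add (pr inc u h A _) (Finset.sum (A \ Bo inc _) _) _]
    rw [Finset.sum_add_distrib]
    congr 1
    · simp_rw [Finset.mul_sum]
      have h1 : ∀ (o : Option E) (F : V → ℝ), ∑ x ∈ A \ Bo inc o, F x =
          ∑ x ∈ A, if x ∉ Bo inc o then F x else 0 := by
        intro o F
        rw [← Finset.sum_filter]
        congr 1
        ext x; simp [Finset.mem_sdiff]
      simp_rw [h1]
      rw [Finset.sum_comm]
      refine Finset.sum_congr rfl (fun x _ => ?_)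
      rw [Finset.sum_filter]
    · simp_rw [Finset.mul_sum]
      rw [Finset.sum_comm]
  rw [hsplit]
  refine add_le_add ?_ ?_
  · refine Finset.sum_le_sum (fun x hx => ?_)
    have h1 : ∀ o ∈ (Ch inc A).filter (fun o => x ∉ Bo inc o), pr inc u h A o *
        (Real.exp (lam * (S inc (uu inc w h (i + 1)) (A \ Bo inc o) x - 1 - rr K beta h (i + 1))) +
          Real.exp (lam * (1 - S inc (uu inc w h (i + 1)) (A \ Bo inc o) x - rr K beta h (i + 1)))) =
        Real.exp (lam * (S inc u A x - 1 - r)) *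
          (pr inc u h A o * Real.exp (lam * (Dl inc u h A x o - 4 * K * h * r))) +
        Real.exp (lam * (1 - S inc u A x - r)) *
          (pr inc u h A o * Real.exp (lam * (-Dl inc u h A x o - 4 * K * h * r))) := by
      intro o _
      have e1 : Real.exp (lam * (S inc (uu inc w h (i + 1)) (A \ Bo inc o) x - 1 - rr K beta h (i + 1))) =
          Real.exp (lam * (S inc u A x - 1 - r)) * Real.exp (lam * (Dl inc u h A x o - 4 * K * h * r)) := by
        rw [← Real.exp_add, hr', hu']
        congr 1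
        unfold Dl; ring
      have e2 : Real.exp (lam * (1 - S inc (uu inc w h (i + 1)) (A \ Bo inc o) x - rr K beta h (i + 1))) =
          Real.exp (lam * (1 - S inc u A x - r)) * Real.exp (lam * (-Dl inc u h A x o - 4 * K * h * r)) := by
        rw [← Real.exp_add, hr', hu']
        congr 1
        unfold Dl; ring
      rw [e1, e2]; ring
    rw [Finset.sum_congr rfl h1, Finset.sum_add_distrib, ← Finset.mul_sum, ← Finset.mul_sum]
    have h2 := step_up inc u hu0 A x hx K hK hc h hh r mu hmu hcoi hr0 hr2 (fun y hy => (hSb y hy).1)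
      (fun y hy => (hSb y hy).2) hhmu (by linarith) hW lam hl (hl1.trans hrb)
    have h3 := step_lo inc u hu0 A x hx K hK hc h hh r mu hmu hcoi hr0 hr2 (fun y hy => (hSb y hy).1)
      (fun y hy => (hSb y hy).2) hhmu (by linarith) hW lam hl (hl1.trans hrb)
    have h4 := Real.exp_pos (lam * (S inc u A x - 1 - r))
    have h5 := Real.exp_pos (lam * (1 - S inc u A x - r))
    have h6 := mul_le_mul_of_nonneg_left h2 h4.le
    have h7 := mul_le_mul_of_nonneg_left h3 h5.le
    linarith
  · refine Finset.sum_le_sum (fun t _ => ?_)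
    set y : Option E → ℝ := fun o => (match o with
      | none => 0
      | some f => (if dm f then ∑ x ∈ inc f, g t x else 0) - ∑ x ∈ inc f, g t x * om x) with hy
    have hyo : ∀ o ∈ Ch inc A, ∑ x ∈ Z ∪ Zo inc dm o, g t x + ∑ x ∈ A \ Bo inc o, g t x * om x =
        ∑ x ∈ Z, g t x + ∑ x ∈ A, g t x * om x + y o := by
      intro o ho
      have hsub := Bo_subset inc A o ho
      have h1 := Finset.sum_sdiff (f := fun x => g t x * om x) hsub
      have hZd : Disjoint Z (Zo inc dm o) := by
        refine Disjoint.mono_right ?_ hAZ.symm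
        cases o with
        | none => simp [Zo]
        | some f =>
          simp only [Zo]
          split_ifs
          · exact hsub
          · simp
      rw [Finset.sum_union hZd, ← h1]
      cases o with
      | none => simp [Zo, hy, Bo]
      | some f =>
        simp only [Zo, hy, Bo]
        split_ifs
        · ring
        · simp only [Finset.sum_empty]; ring
    have h1 : ∀ o ∈ Ch inc A, pr inc u h A o *
        (Real.exp (kap * ((1 + h) ^ (i + 1) * ∑ x ∈ A \ Bo inc o, g t x - 1 - rr K beta h (i + 1))) +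
    Real.exp (kap * (∑ x ∈ Z ∪ Zo inc dm o, g t x + ∑ x ∈ A \ Bo inc o, g t x * om x -
      ∑ x, g t x * om x - rr K beta h (i + 1)))) =
        Real.exp (kap * ((1 + h) ^ i * ∑ x ∈ A, g t x - 1 - r)) *
          (pr inc u h A o * Real.exp (kap * (((1 + h) ^ i * (1 + h) * ∑ x ∈ A \ Bo inc o, g t x -
            (1 + h) ^ i * ∑ x ∈ A, g t x) - 4 * K * h * r))) +
        Real.exp (kap * (∑ x ∈ Z, g t x + ∑ x ∈ A, g t x * om x - ∑ x, g t x * om x - r)) *
          (pr inc u h A o * Real.exp (kap * (y o - 4 * K * h * r))) := by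
      intro o ho
      have e1 : Real.exp (kap * ((1 + h) ^ (i + 1) * ∑ x ∈ A \ Bo inc o, g t x - 1 - rr K beta h (i + 1))) =
          Real.exp (kap * ((1 + h) ^ i * ∑ x ∈ A, g t x - 1 - r)) *
          Real.exp (kap * (((1 + h) ^ i * (1 + h) * ∑ x ∈ A \ Bo inc o, g t x -
            (1 + h) ^ i * ∑ x ∈ A, g t x) - 4 * K * h * r)) := by
        rw [← Real.exp_add, hr', pow_succ]
        congr 1
        ring
      have e2 : Real.exp (kap * (∑ x ∈ Z ∪ Zo inc dm o, g t x + ∑ x ∈ A \ Bo inc o, g t x * om x -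
          ∑ x, g t x * om x - rr K beta h (i + 1))) =
          Real.exp (kap * (∑ x ∈ Z, g t x + ∑ x ∈ A, g t x * om x - ∑ x, g t x * om x - r)) *
          Real.exp (kap * (y o - 4 * K * h * r)) := by
        rw [← Real.exp_add, hr', hyo o ho]
        congr 1
        ring
      rw [e1, e2]; ring
    rw [Finset.sum_congr rfl h1, Finset.sum_add_distrib, ← Finset.mul_sum, ← Finset.mul_sum]
    have hci : (1 + h) ^ i * (1 + h) ≤ Th := by
      rw [← pow_succ]
      refine le_trans ?_ hTh
      exact pow_le_pow_right₀ (by linarith) hi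
    have h2 := step_B inc u hu0 A K hK hc h hh r hr0 hr2 (fun y hy => (hSb y hy).1)
      (fun y hy => (hSb y hy).2) hh6 hW (g t) (hg t) eps heps0 (heps t) ((1 + h) ^ i) Th (by positivity)
      hci (hBb t) kap hk (hk1.trans hrb)
    have hdmA : ∀ x ∈ A, ∑ f ∈ (star inc A x).filter dm, u f ≤ om x := by
      intro x _
      rw [hom x]
      have e0 : ∑ f ∈ (star inc A x).filter dm, u f = ∑ f ∈ (star inc A x).filter dm, w f := by
        refine Finset.sum_congr rfl (fun f hf => ?_)
        rw [Finset.mem_filter] at hf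
        have := hdm f hf.2
        have hm : mm inc f = 0 := by unfold mm; omega
        rw [hu]; unfold uu; rw [hm]; simp
      rw [e0]
      refine Finset.sum_le_sum_of_subset_of_nonneg ?_ (fun f _ _ => hw f)
      intro f hf
      rw [Finset.mem_filter, mem_star] at hf
      simp only [Finset.mem_filter, Finset.mem_univ, true_and]
      exact ⟨hf.1.2, hf.2⟩
    have hom0 : ∀ x, 0 ≤ om x := fun x => by
      rw [hom x]; exact Finset.sum_nonneg (fun e _ => hw e)
    have hom1 : ∀ x, om x ≤ 1 := fun x => by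
      rw [hom x, ← hdeg x]
      refine Finset.sum_le_sum_of_subset_of_nonneg ?_ (fun f _ _ => hw f)
      intro f hf
      simp only [Finset.mem_filter, Finset.mem_univ, true_and] at hf ⊢
      exact hf.1
    have hk2 : kap * (K * eps) * 2 ≤ r := by
      have e1 : K * eps ≤ 2 * h + Th * (K * eps) := by
        have : 0 ≤ K * eps := by positivity
        nlinarith
      have e2 : kap * (K * eps) ≤ kap * (2 * h + Th * (K * eps)) := by gcongr
      have e3 : 0 ≤ kap * (K * eps) := by positivity
      linarith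
    have h3 := step_Y inc u hu0 A K hK hc h hh r hr0 hr2 (fun y hy => (hSb y hy).1)
      (fun y hy => (hSb y hy).2) hW (g t) (hg t) eps heps0 (heps t) dm om hom0 hom1 hdmA
      ((Finset.sum_le_sum_of_subset_of_nonneg (Finset.subset_univ A) (fun x _ _ => hg t x)).trans (hg1 t))
      kap hk hk2 y (fun o => by cases o <;> rfl)
    have h4 := Real.exp_pos (kap * ((1 + h) ^ i * ∑ x ∈ A, g t x - 1 - r))
    have h5 := Real.exp_pos (kap * (∑ x ∈ Z, g t x + ∑ x ∈ A, g t x * om x - ∑ x, g t x * om x - r))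
    have h6 := mul_le_mul_of_nonneg_left h2 h4.le
    have h7 := mul_le_mul_of_nonneg_left h3 h5.le
    linarith

/-- vertices not covered by `M` -/
def Alv (inc : E → Finset V) (M : Finset E) : Finset V := univ \ M.biUnion inc

/-- vertices covered by the dummy edges of `M` -/
def Zed (inc : E → Finset V) (dm : E → Prop) [DecidablePred dm] (M : Finset E) : Finset V :=
  (M.filter dm).biUnion inc

omit [Fintype E] [Fintype T] in
theorem Alv_Zed (inc : E → Finset V) (dm : E → Prop) [DecidablePred dm] (M : Finset E) :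
    Disjoint (Alv inc M) (Zed inc dm M) := by
  rw [Finset.disjoint_left]
  intro x hx hz
  unfold Alv at hx
  unfold Zed at hz
  rw [Finset.mem_sdiff, Finset.mem_biUnion] at hx
  rw [Finset.mem_biUnion] at hz
  obtain ⟨f, hf, hxf⟩ := hz
  exact hx.2 ⟨f, (Finset.mem_filter.mp hf).1, hxf⟩

include hw hK hc hne hh hb hmu hco hRr hhmu hsm hV hTh hdm hom hdeg hg heps0 heps hg1 hl hk hl1 hk1 in
/-- the iteration -/
theorem iterate (hstart : 2 * (Fintype.card V : ℝ) * Real.exp (-(lam * beta)) +
      2 * (Fintype.card T : ℝ) * Real.exp (-(kap * beta)) < 1) (i : ℕ) (hi : i ≤ R) :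
    ∃ M : Finset E, (∀ e ∈ M, ∀ f ∈ M, e ≠ f → Disjoint (inc e) (inc f)) ∧
      Phi inc w om g K beta h lam kap i (Alv inc M) (Zed inc dm M) < 1 := by
  classical
  induction i with
  | zero =>
    refine ⟨∅, by simp, ?_⟩
    have hA : Alv inc ∅ = univ := by simp [Alv]
    have hZ : Zed inc dm ∅ = ∅ := by simp [Zed]
    rw [hA, hZ]
    refine lt_of_le_of_lt ?_ hstart
    unfold Phi
    have h0 : rr K beta h 0 = beta := by simp [rr]
    have hS : ∀ x, S inc (uu inc w h 0) univ x = 1 := by
      intro x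
      rw [← hdeg x]
      unfold S
      have e1 : star inc univ x = univ.filter (fun e => x ∈ inc e) := by
        ext e; simp [mem_star]
      rw [e1]
      refine Finset.sum_congr rfl (fun e _ => ?_)
      simp [uu]
    rw [h0]
    refine add_le_add ?_ ?_
    · rw [Finset.sum_congr rfl (g := fun _ => 2 * Real.exp (-(lam * beta)))]
      · rw [Finset.sum_const, nsmul_eq_mul, Finset.card_univ]
        exact le_of_eq (by ring)
      · intro x _
        rw [hS x]
        have : lam * (1 - 1 - beta) = -(lam * beta) := by ring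
        rw [this]; ring
    · have e2 : ∀ t ∈ (univ : Finset T), (Real.exp (kap * ((1 + h) ^ 0 * ∑ x, g t x - 1 - beta)) +
          Real.exp (kap * (∑ x ∈ ∅, g t x + ∑ x, g t x * om x - ∑ x, g t x * om x - beta))) ≤
          2 * Real.exp (-(kap * beta)) := by
        intro t _
        have e3 : Real.exp (kap * ((1 + h) ^ 0 * ∑ x, g t x - 1 - beta)) ≤ Real.exp (-(kap * beta)) := by
          apply Real.exp_le_exp.mpr
          have := hg1 t
          have e4 : (1 + h) ^ 0 * ∑ x, g t x - 1 - beta ≤ -beta := by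
            rw [pow_zero]; linarith
          nlinarith
        have e5 : Real.exp (kap * (∑ x ∈ ∅, g t x + ∑ x, g t x * om x - ∑ x, g t x * om x - beta)) =
            Real.exp (-(kap * beta)) := by
          congr 1
          rw [Finset.sum_empty]; ring
        rw [e5]; linarith
      refine (Finset.sum_le_sum e2).trans ?_
      rw [Finset.sum_const, nsmul_eq_mul, Finset.card_univ]
      exact le_of_eq (by ring)
  | succ i ih =>
    obtain ⟨M, hM, hPhi⟩ := ih (by omega)
    obtain ⟨o, ho, hle⟩ := one_step inc w dm om g K beta h mu Th lam kap eps R hw hK hc hne hh hb hmu hco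
      hRr hhmu hsm hV hTh hdm hom hdeg hg heps0 heps hg1 hl hk hl1 hk1 i (by omega) _ _
      (Alv_Zed inc dm M) hPhi
    cases o with
    | none =>
      refine ⟨M, hM, ?_⟩
      simp only [Bo, Zo, Finset.sdiff_empty, Finset.union_empty] at hle
      exact lt_of_le_of_lt hle hPhi
    | some f =>
      have hf : inc f ⊆ Alv inc M := Bo_subset inc _ (some f) ho
      refine ⟨insert f M, ?_, ?_⟩
      · have hfd : ∀ e ∈ M, Disjoint (inc e) (inc f) := by
          intro e he
          rw [Finset.disjoint_right]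
          intro x hx hxe
          have := hf hx
          unfold Alv at this
          rw [Finset.mem_sdiff, Finset.mem_biUnion] at this
          exact this.2 ⟨e, he, hxe⟩
        intro e he e' he' hne'
        rw [Finset.mem_insert] at he he'
        rcases he with rfl | he
        · rcases he' with rfl | he'
          · exact absurd rfl hne'
          · exact (hfd e' he').symm
        · rcases he' with rfl | he'
          · exact hfd e he
          · exact hM e he e' he' hne'
      · have e1 : Alv inc (insert f M) = Alv inc M \ Bo inc (some f) := by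
          unfold Alv
          rw [Finset.biUnion_insert]
          ext x
          simp only [Finset.mem_sdiff, Finset.mem_univ, true_and, Finset.mem_union, Bo]
          tauto
        have e2 : Zed inc dm (insert f M) = Zed inc dm M ∪ Zo inc dm (some f) := by
          unfold Zed
          rw [Finset.filter_insert]
          by_cases hd : dm f
          · rw [if_pos hd, Finset.biUnion_insert, Finset.union_comm]
            simp [Zo, hd]
          · rw [if_neg hd]
            simp [Zo, hd]
        rw [e1, e2]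
        exact lt_of_le_of_lt hle hPhi

include hw hK hc hne hh hb hmu hco hRr hhmu hsm hV hTh hdm hom hdeg hg heps0 heps hg1 hl hk hl1 hk1 in
/-- the outcome of the nibble -/
theorem outcome (hstart : 2 * (Fintype.card V : ℝ) * Real.exp (-(lam * beta)) +
      2 * (Fintype.card T : ℝ) * Real.exp (-(kap * beta)) < 1) :
    ∃ M : Finset E, (∀ e ∈ M, ∀ f ∈ M, e ≠ f → Disjoint (inc e) (inc f)) ∧
      ∀ t, (1 + h) ^ R * ∑ x ∈ Alv inc M, g t x ≤ 1 + rr K beta h R ∧
        ∑ x ∈ Zed inc dm M, g t x ≤ ∑ x, g t x * om x + rr K beta h R := by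
  obtain ⟨M, hM, hPhi⟩ := iterate inc w dm om g K beta h mu Th lam kap eps R hw hK hc hne hh hb hmu hco
      hRr hhmu hsm hV hTh hdm hom hdeg hg heps0 heps hg1 hl hk hl1 hk1 hstart R le_rfl
  refine ⟨M, hM, fun t => ?_⟩
  unfold Phi at hPhi
  have hs1 : 0 ≤ ∑ x ∈ Alv inc M, (Real.exp (lam * (S inc (uu inc w h R) (Alv inc M) x - 1 - rr K beta h R)) +
    Real.exp (lam * (1 - S inc (uu inc w h R) (Alv inc M) x - rr K beta h R))) :=
    Finset.sum_nonneg (fun x _ => by positivity)
  have h1 := Finset.single_le_sum (f := fun t => (Real.exp (kap * ((1 + h) ^ R * ∑ x ∈ Alv inc M, g t x - 1 - rr K beta h R)) +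
    Real.exp (kap * (∑ x ∈ Zed inc dm M, g t x + ∑ x ∈ Alv inc M, g t x * om x - ∑ x, g t x * om x - rr K beta h R))))
    (fun t _ => by positivity) (Finset.mem_univ t)
  have h2 := Real.exp_pos (kap * ((1 + h) ^ R * ∑ x ∈ Alv inc M, g t x - 1 - rr K beta h R))
  have h3 := Real.exp_pos (kap * (∑ x ∈ Zed inc dm M, g t x + ∑ x ∈ Alv inc M, g t x * om x - ∑ x, g t x * om x - rr K beta h R))
  have hexp : ∀ (a b : ℝ), 0 ≤ a → Real.exp (a * b) < 1 → b < 0 := by
    intro a b ha hab
    rw [Real.exp_lt_one_iff] at hab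
    by_contra hcon
    push Not at hcon
    have : 0 ≤ a * b := mul_nonneg ha hcon
    linarith
  have h4 := hexp _ _ hk (by linarith : Real.exp (kap * ((1 + h) ^ R * ∑ x ∈ Alv inc M, g t x - 1 - rr K beta h R)) < 1)
  have h5 := hexp _ _ hk (by linarith : Real.exp (kap * (∑ x ∈ Zed inc dm M, g t x + ∑ x ∈ Alv inc M, g t x * om x - ∑ x, g t x * om x - rr K beta h R)) < 1)
  have hom0 : ∀ x, 0 ≤ om x := fun x => by
    rw [hom x]; exact Finset.sum_nonneg (fun e _ => hw e)
  have h6 : 0 ≤ ∑ x ∈ Alv inc M, g t x * om x :=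
    Finset.sum_nonneg (fun x _ => mul_nonneg (hg t x) (hom0 x))
  constructor <;> linarith

end

end Nib
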