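import Pool.Agent.Nib.Step

set_option autoImplicit false

/-! Weighted nibble: exponential moments of one step. -/

namespace Nib

open Finset

variable {V E : Type*} [DecidableEq V] [Fintype E]

section

variable (inc : E → Finset V) (u : E → ℝ) (hu : ∀ e, 0 ≤ u e) (A : Finset V) (x : V) (hx : x ∈ A)
  (K : ℝ) (hK : 1 ≤ K) (hc : ∀ e, ((inc e).card : ℝ) ≤ K) (h : ℝ) (hh : 0 ≤ h)
  (r mu : ℝ) (hmu : 0 ≤ mu) (hco : Codeg inc u mu) (hr : 0 ≤ r) (hr2 : r ≤ 1 / 2)
  (hSl : ∀ y ∈ A, 1 - r ≤ S inc u A y) (hSu : ∀ y ∈ A, S inc u A y ≤ 1 + r)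
  (hhmu : 2 * h ≤ mu) (hsm : K * mu + 6 * K * h ≤ r / 2)
  (hW : h * ∑ f ∈ alive inc A, u f ≤ 1)

/-- the change of the weighted degree -/
def Dl (inc : E → Finset V) (u : E → ℝ) (h : ℝ) (A : Finset V) (x : V) (o : Option E) : ℝ :=
  S inc (fun e => u e * (1 + h) ^ (mm inc e)) (A \ Bo inc o) x - S inc u A x

theorem Dl_eq (inc : E → Finset V) (u : E → ℝ) (h : ℝ) (A : Finset V) (x : V) (o : Option E) :
    Dl inc u h A x o = Gg inc u h A x - Hit inc u h A x (Bo inc o) := S_diff inc u h A x _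

theorem Hit_empty (inc : E → Finset V) (u : E → ℝ) (h : ℝ) (A : Finset V) (x : V) :
    Hit inc u h A x ∅ = 0 := by
  unfold Hit
  rw [Finset.filter_false_of_mem]
  · simp
  · intro e _; simp

theorem Bo_card (inc : E → Finset V) (K : ℝ) (hK : 1 ≤ K) (hc : ∀ e, ((inc e).card : ℝ) ≤ K)
    (o : Option E) : ((Bo inc o).card : ℝ) ≤ K := by
  cases o with
  | none => simp only [Bo, Finset.card_empty]; push_cast; linarith
  | some f => exact hc f

include hu hx hK hc hh hmu hco hr hr2 hSl hSu hhmu hsm hW in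
/-- bounds on the first and second moments of the change -/
theorem moments :
    (∀ o ∈ (Ch inc A).filter (fun o => x ∉ Bo inc o), |Dl inc u h A x o| ≤ 4 * K * mu) ∧
    (∑ o ∈ (Ch inc A).filter (fun o => x ∉ Bo inc o), pr inc u h A o * Dl inc u h A x o ≤ 3 * K * h * r) ∧
    (∑ o ∈ (Ch inc A).filter (fun o => x ∉ Bo inc o), pr inc u h A o * (-Dl inc u h A x o) ≤ 3 * K * h * r) ∧
    (∑ o ∈ (Ch inc A).filter (fun o => x ∉ Bo inc o), pr inc u h A o * (Dl inc u h A x o) ^ 2 ≤
      40 * K ^ 2 * mu * h) := by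
  have hKh : 2 * K * h ≤ 1 := by nlinarith [mul_nonneg (by linarith : (0:ℝ) ≤ K) hmu]
  have hKmu : 0 ≤ K * mu := by positivity
  have hKh0 : 0 ≤ K * h := by positivity
  have hP0 := Pp_nonneg inc u hu A x
  have hP1 := Pp_le inc u hu A x K hK hc
  have hP2 : Pp inc u A x ≤ 3 / 2 * K := by
    have := hSu x hx
    nlinarith
  have hG1 := Gg_lower inc u hu A x h hh
  have hG2 := Gg_upper inc u hu A x K hK hc h hh hKh
  set P := Pp inc u A x with hPdef
  set G := Gg inc u h A x with hGdef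
  have hhP : 0 ≤ h * P := by positivity
  have hG0 : 0 ≤ G := le_trans hhP hG1
  have hG3 : G ≤ 3 / 2 * (h * P) := by
    refine hG2.trans ?_
    nlinarith
  have hEH := EH_bounds inc u hu A x K hK hc h hh hKh r mu hmu hco hr hSl hSu (by nlinarith)
  rw [← hPdef] at hEH
  set EH := ∑ f ∈ (alive inc A).filter (fun f => x ∉ inc f), u f * Hit inc u h A x (inc f) with hEHdef
  have hEHs : ∑ o ∈ (Ch inc A).filter (fun o => x ∉ Bo inc o),
      pr inc u h A o * Hit inc u h A x (Bo inc o) = h * EH := by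
    rw [sum_choice inc u h A x (fun B => Hit inc u h A x B), Hit_empty]; ring
  have hsumG : ∑ o ∈ (Ch inc A).filter (fun o => x ∉ Bo inc o), pr inc u h A o * G =
      (1 - h * S inc u A x) * G := by
    rw [← Finset.sum_mul, pr_sum_x]
  have hD : ∀ o, Dl inc u h A x o = G - Hit inc u h A x (Bo inc o) := fun o => Dl_eq inc u h A x o
  have hHit : ∀ o ∈ (Ch inc A).filter (fun o => x ∉ Bo inc o),
      0 ≤ Hit inc u h A x (Bo inc o) ∧ Hit inc u h A x (Bo inc o) ≤ 2 * K * mu := by
    intro o ho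
    exact Hit_nonneg_le inc u hu A x K hK hc h hh hKh mu hco (Bo inc o)
      (Bo_card inc K hK hc o) (Finset.mem_filter.mp ho).2 hmu
  have hpr : ∀ o, 0 ≤ pr inc u h A o := pr_nonneg inc u hu h hh A hW
  have hS1 := hSl x hx
  have hS2 := hSu x hx
  have hhS : 0 ≤ h * S inc u A x := by
    have : 0 ≤ S inc u A x := S_nonneg hu A x
    positivity
  have hGK : G ≤ 2 * K * mu := by nlinarith
  have habs : ∀ o ∈ (Ch inc A).filter (fun o => x ∉ Bo inc o), |Dl inc u h A x o| ≤ 4 * K * mu := by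
    intro o ho
    have h1 := hHit o ho
    rw [hD, abs_le]
    constructor <;> nlinarith
  have hEHh : h * EH ≤ h * (P * (1 + r) * (1 + 2 * K * h)) := by gcongr; exact hEH.2
  have hEHl : h * (P * (1 - r - K * mu)) ≤ h * EH := by gcongr; exact hEH.1
  have hsum1 : ∑ o ∈ (Ch inc A).filter (fun o => x ∉ Bo inc o), pr inc u h A o * Dl inc u h A x o =
      (1 - h * S inc u A x) * G - h * EH := by
    rw [← hsumG, ← hEHs, ← Finset.sum_sub_distrib]
    exact Finset.sum_congr rfl (fun o _ => by rw [hD]; ring)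
  have hhP2 : h * P ≤ 3 / 2 * (K * h) := by nlinarith
  refine ⟨habs, ?_, ?_, ?_⟩
  · rw [hsum1]
    have h1 : (1 - h * S inc u A x) * G ≤ G := by nlinarith
    have h2 : (1 - h * S inc u A x) * G - h * EH ≤ (h * P) * (r + K * mu + K * h) := by
      nlinarith
    have h3 : r + K * mu + K * h ≤ 2 * r := by linarith
    have h4 : (h * P) * (r + K * mu + K * h) ≤ (h * P) * (2 * r) := by gcongr
    nlinarith
  · have h0 : ∑ o ∈ (Ch inc A).filter (fun o => x ∉ Bo inc o), pr inc u h A o * (-Dl inc u h A x o) =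
      -((1 - h * S inc u A x) * G - h * EH) := by
      rw [← hsum1, ← Finset.sum_neg_distrib]
      exact Finset.sum_congr rfl (fun o _ => by ring)
    rw [h0]
    have h1 : h * S inc u A x * G ≤ (3 / 2 * h) * (3 / 2 * (h * P)) := by
      have : h * S inc u A x ≤ 3 / 2 * h := by nlinarith
      gcongr
    have hh1 : h ≤ K * h := by nlinarith
    have h2 : -((1 - h * S inc u A x) * G - h * EH) ≤ (h * P) * (r + 6 * (K * h)) := by
      have e1 : (1 + r) * (1 + 2 * K * h) ≤ 1 + r + 3 * (K * h) := by nlinarith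
      have e2 : h * (P * (1 + r) * (1 + 2 * K * h)) ≤ (h * P) * (1 + r + 3 * (K * h)) := by
        calc h * (P * (1 + r) * (1 + 2 * K * h)) = (h * P) * ((1 + r) * (1 + 2 * K * h)) := by ring
          _ ≤ _ := by gcongr
      have e3 : (3 / 2 * h) * (3 / 2 * (h * P)) ≤ (h * P) * (3 * (K * h)) := by nlinarith
      nlinarith
    have h3 : r + 6 * (K * h) ≤ 2 * r := by linarith
    have h4 : (h * P) * (r + 6 * (K * h)) ≤ (h * P) * (2 * r) := by gcongr
    nlinarith
  · have h1 : ∀ o ∈ (Ch inc A).filter (fun o => x ∉ Bo inc o),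
        pr inc u h A o * (Dl inc u h A x o) ^ 2 ≤
          (4 * K * mu) * (pr inc u h A o * G + pr inc u h A o * Hit inc u h A x (Bo inc o)) := by
      intro o ho
      have h2 := habs o ho
      have h3 := hHit o ho
      have h4 : |Dl inc u h A x o| ≤ G + Hit inc u h A x (Bo inc o) := by
        rw [hD, abs_le]; constructor <;> linarith
      have h5 : (Dl inc u h A x o) ^ 2 ≤ (4 * K * mu) * (G + Hit inc u h A x (Bo inc o)) := by
        rw [← sq_abs, sq]
        gcongr
      have := hpr o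
      calc _ ≤ pr inc u h A o * ((4 * K * mu) * (G + Hit inc u h A x (Bo inc o))) := by gcongr
        _ = _ := by ring
    refine (Finset.sum_le_sum h1).trans ?_
    rw [← Finset.mul_sum, Finset.sum_add_distrib, hsumG, hEHs]
    have h6 : (1 - h * S inc u A x) * G + h * EH ≤ 10 * (K * h) := by
      have e0 : (1 - h * S inc u A x) * G ≤ G := by nlinarith
      have e1 : (1 + r) * (1 + 2 * K * h) ≤ 3 := by nlinarith
      have e2 : h * (P * (1 + r) * (1 + 2 * K * h)) ≤ (h * P) * 3 := by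
        calc h * (P * (1 + r) * (1 + 2 * K * h)) = (h * P) * ((1 + r) * (1 + 2 * K * h)) := by ring
          _ ≤ _ := by gcongr
      nlinarith
    calc 4 * K * mu * ((1 - h * S inc u A x) * G + h * EH) ≤ 4 * K * mu * (10 * (K * h)) := by gcongr
      _ = _ := by ring

include hu hx hK hc hh hmu hco hr hr2 hSl hSu hhmu hsm hW in
theorem step_up (lam : ℝ) (hl : 0 ≤ lam) (hl1 : lam * (40 * K * mu) ≤ r) :
    ∑ o ∈ (Ch inc A).filter (fun o => x ∉ Bo inc o),
      pr inc u h A o * Real.exp (lam * (Dl inc u h A x o - 4 * K * h * r)) ≤ 1 := by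
  obtain ⟨h1, h2, _, h4⟩ := moments inc u hu A x hx K hK hc h hh r mu hmu hco hr hr2 hSl hSu hhmu hsm hW
  refine expo _ _ _ lam (3 * K * h * r) (40 * K ^ 2 * mu * h) _ (fun o _ => pr_nonneg inc u hu h hh A hW o)
    ?_ hl ?_ h2 h4 ?_
  · rw [pr_sum_x]
    have : 0 ≤ S inc u A x := S_nonneg hu A x
    nlinarith [mul_nonneg hh this]
  · intro o ho
    rw [abs_mul, abs_of_nonneg hl]
    have := h1 o ho
    have h5 : lam * |Dl inc u h A x o| ≤ lam * (4 * K * mu) := by gcongr
    nlinarith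
  · have : K * h * (lam * (40 * K * mu)) ≤ K * h * r := by gcongr
    nlinarith

include hu hx hK hc hh hmu hco hr hr2 hSl hSu hhmu hsm hW in
theorem step_lo (lam : ℝ) (hl : 0 ≤ lam) (hl1 : lam * (40 * K * mu) ≤ r) :
    ∑ o ∈ (Ch inc A).filter (fun o => x ∉ Bo inc o),
      pr inc u h A o * Real.exp (lam * (-Dl inc u h A x o - 4 * K * h * r)) ≤ 1 := by
  obtain ⟨h1, _, h2, h4⟩ := moments inc u hu A x hx K hK hc h hh r mu hmu hco hr hr2 hSl hSu hhmu hsm hW
  refine expo _ _ _ lam (3 * K * h * r) (40 * K ^ 2 * mu * h) _ (fun o _ => pr_nonneg inc u hu h hh A hW o)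
    ?_ hl ?_ h2 (by simpa using h4) ?_
  · rw [pr_sum_x]
    have : 0 ≤ S inc u A x := S_nonneg hu A x
    nlinarith [mul_nonneg hh this]
  · intro o ho
    rw [abs_mul, abs_of_nonneg hl, abs_neg]
    have := h1 o ho
    have h5 : lam * |Dl inc u h A x o| ≤ lam * (4 * K * mu) := by gcongr
    nlinarith
  · have : K * h * (lam * (40 * K * mu)) ≤ K * h * r := by gcongr
    nlinarith

end

end Nib
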