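import Pool.Agent.Nib.Top

set_option autoImplicit false

/-! Weighted nibble with test functions: real exponents. -/

namespace Nib

open Finset

theorem nibble_rpow :
  ∀ (k : ℕ) (γ A : ℝ), 0 < γ → ∃ δ₀ : ℝ, 0 < δ₀ ∧ ∀ δ : ℝ, 0 < δ → δ ≤ δ₀ →
    ∀ (ι J Θ : Type) [Fintype ι] [DecidableEq ι] [Fintype J] [DecidableEq J] [Fintype Θ]
      (E : J → Finset ι) (w : J → ℝ) (t : Θ → ι → ℝ),
      (∀ j, (E j).Nonempty ∧ (E j).card ≤ k) → (∀ j, 0 ≤ w j) →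
      (∀ x, ∑ j with x ∈ E j, w j ≤ 1) →
      (∀ x y, x ≠ y → ∑ j with (x ∈ E j ∧ y ∈ E j), w j ≤ δ) →
      (Fintype.card ι : ℝ) ≤ δ ^ (-A) → (Fintype.card Θ : ℝ) ≤ δ ^ (-A) →
      (∀ θ x, 0 ≤ t θ x ∧ t θ x ≤ 1) →
      ∃ M : Finset J, (∀ j ∈ M, 0 < w j) ∧
        (∀ i ∈ M, ∀ j ∈ M, i ≠ j → Disjoint (E i) (E j)) ∧
        ∀ θ, ∑ x with (∀ j ∈ M, x ∉ E j), t θ x ≤
          ∑ x, t θ x * (1 - ∑ j with x ∈ E j, w j) + γ * (∑ x, t θ x + δ ^ (-(1/2) : ℝ)) := by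
  intro k γ A hγ
  obtain ⟨δ0, hδ00, hmain⟩ := nibble_main k γ hγ ⌈A⌉₊
  refine ⟨min δ0 1, lt_min hδ00 one_pos, ?_⟩
  intro δ hδ hδ0 ι J Θ _ _ _ _ _ E w t hE hw hdeg hco hι hΘ ht
  have hδ1 : δ ≤ 1 := hδ0.trans (min_le_right _ _)
  have hpow : δ ^ (-A) ≤ δ⁻¹ ^ ⌈A⌉₊ := by
    rw [← Real.rpow_natCast, Real.inv_rpow hδ.le, ← Real.rpow_neg hδ.le]
    exact Real.rpow_le_rpow_of_exponent_ge hδ hδ1 (neg_le_neg (Nat.le_ceil A))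
  have hsq : √(δ⁻¹) = δ ^ (-(1/2) : ℝ) := by
    rw [Real.sqrt_eq_rpow, Real.inv_rpow hδ.le, ← Real.rpow_neg hδ.le]
  obtain ⟨M, h1, h2, h3⟩ := hmain δ hδ (hδ0.trans (min_le_left _ _)) ι J Θ E w t
    (fun j => (hE j).1) (fun j => (hE j).2) hw hdeg hco (hι.trans hpow) (hΘ.trans hpow) ht
  refine ⟨M, h1, h2, fun θ => ?_⟩
  rw [← hsq]
  refine le_trans (le_of_eq (Finset.sum_congr ?_ (fun _ _ => rfl))) (h3 θ)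
  ext x
  simp only [Finset.mem_filter]

end Nib
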