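import Pool.Agent.Nib.Drift

set_option autoImplicit false

/-! Weighted nibble: exponential moments of one step. -/

namespace Nib

open Finset

variable {V E : Type*} [DecidableEq V] [Fintype E]

/-- the choices: nothing or an alive edge -/
def Ch (inc : E → Finset V) (A : Finset V) : Finset (Option E) := Finset.insertNone (alive inc A)

def pr (inc : E → Finset V) (u : E → ℝ) (h : ℝ) (A : Finset V) : Option E → ℝ
  | none => 1 - h * ∑ f ∈ alive inc A, u f
  | some f => h * u f

def Bo (inc : E → Finset V) : Option E → Finset V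
  | none => ∅
  | some f => inc f

theorem sum_choice (inc : E → Finset V) (u : E → ℝ) (h : ℝ) (A : Finset V) (x : V)
    (φ : Finset V → ℝ) :
    ∑ o ∈ (Ch inc A).filter (fun o => x ∉ Bo inc o), pr inc u h A o * φ (Bo inc o) =
      (1 - h * ∑ f ∈ alive inc A, u f) * φ ∅ +
        h * ∑ f ∈ (alive inc A).filter (fun f => x ∉ inc f), u f * φ (inc f) := by
  rw [Finset.sum_filter]
  unfold Ch
  simp only [Finset.sum_insertNone, Bo, pr, Finset.notMem_empty, not_false_eq_true, if_true]
  have h1 : ∀ f ∈ alive inc A, (if x ∉ inc f then h * u f * φ (inc f) else 0) =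
      h * (if x ∉ inc f then (u f * φ (inc f)) else 0) := by
    intro f _
    by_cases hx : x ∈ inc f
    · simp [hx]
    · simp only [hx, not_false_eq_true, if_true]; ring
  rw [Finset.sum_congr rfl h1, ← Finset.mul_sum, Finset.sum_filter]

theorem sum_choice_all (inc : E → Finset V) (u : E → ℝ) (h : ℝ) (A : Finset V)
    (φ : Finset V → ℝ) :
    ∑ o ∈ Ch inc A, pr inc u h A o * φ (Bo inc o) =
      (1 - h * ∑ f ∈ alive inc A, u f) * φ ∅ + h * ∑ f ∈ alive inc A, u f * φ (inc f) := by
  unfold Ch
  simp only [Finset.sum_insertNone, Bo, pr]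
  have h1 : ∀ f ∈ alive inc A, h * u f * φ (inc f) = h * (u f * φ (inc f)) := by
    intro f _; ring
  rw [Finset.sum_congr rfl h1, ← Finset.mul_sum]

theorem pr_sum (inc : E → Finset V) (u : E → ℝ) (h : ℝ) (A : Finset V) :
    ∑ o ∈ Ch inc A, pr inc u h A o = 1 := by
  have := sum_choice_all inc u h A (fun _ => 1)
  simp only [mul_one] at this
  rw [this]; ring

theorem pr_sum_x (inc : E → Finset V) (u : E → ℝ) (h : ℝ) (A : Finset V) (x : V) :
    ∑ o ∈ (Ch inc A).filter (fun o => x ∉ Bo inc o), pr inc u h A o = 1 - h * S inc u A x := by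
  have := sum_choice inc u h A x (fun _ => 1)
  simp only [mul_one] at this
  rw [this]
  have h1 := Finset.sum_filter_add_sum_filter_not (alive inc A) (fun f => x ∈ inc f) u
  unfold S star
  rw [← h1]; ring

theorem pr_nonneg (inc : E → Finset V) (u : E → ℝ) (hu : ∀ e, 0 ≤ u e) (h : ℝ) (hh : 0 ≤ h)
    (A : Finset V) (hW : h * ∑ f ∈ alive inc A, u f ≤ 1) (o : Option E) :
    0 ≤ pr inc u h A o := by
  cases o with
  | none => simp only [pr]; linarith
  | some f => simp only [pr]; exact mul_nonneg hh (hu f)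

end Nib
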