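import Pool.Agent.Nib.Final

set_option autoImplicit false

/-! Weighted nibble with test functions: proof of the final statement. -/

namespace Nib

open Finset

section

variable {ι J : Type} [Fintype ι] [DecidableEq ι] [Fintype J]

/-- extended edge set -/
abbrev EE (ι : Type) {J : Type} (w : J → ℝ) : Type := {j : J // 0 < w j} ⊕ ι

def incE (E : J → Finset ι) (w : J → ℝ) : EE ι w → Finset ι :=
  Sum.elim (fun j => E j.1) (fun x => {x})

noncomputable def wE (E : J → Finset ι) (w : J → ℝ) : EE ι w → ℝ :=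
  Sum.elim (fun j => w j.1) (fun x => 1 - ∑ j ∈ univ.filter (fun j => x ∈ E j), w j)

theorem sub_sum (w : J → ℝ) (hw : ∀ j, 0 ≤ w j) (P : J → Prop) [DecidablePred P]
    [Fintype {j : J // 0 < w j}] (f : J → ℝ) (hf : ∀ j, w j = 0 → f j = 0) :
    ∑ j : {j : J // 0 < w j}, (if P j.1 then f j.1 else 0) = ∑ j ∈ univ.filter P, f j := by
  classical
  rw [Finset.sum_filter]
  have h1 : ∑ j : {j : J // 0 < w j}, (if P j.1 then f j.1 else 0) =
      ∑ j ∈ univ.filter (fun j => 0 < w j), (if P j then f j else 0) := by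
    rw [← Finset.sum_subtype (univ.filter (fun j => 0 < w j)) (by simp)
      (fun j => if P j then f j else 0)]
  rw [h1, Finset.sum_filter]
  refine Finset.sum_congr rfl (fun j _ => ?_)
  split_ifs with h2 h3 h3
  · rfl
  · rfl
  · have : w j = 0 := le_antisymm (not_lt.mp h2) (hw j)
    exact (hf j this).symm
  · rfl

end

theorem nibble_main : NibbleStmt := by
  classical
  intro k γ hγ A
  have hK : (1 : ℝ) ≤ (k : ℝ) + 1 := by have : (0 : ℝ) ≤ k := by positivity
                                        linarith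
  have hγ' : 0 < min γ 1 := lt_min hγ one_pos
  obtain ⟨C1, Th, beta, δ0, s, hδ00, hδ01, hb, hTh0, hC1, hs, hpar⟩ :=
    params ((k : ℝ) + 1) (min γ 1) hK hγ' (min_le_right _ _) A
  refine ⟨δ0, hδ00, ?_⟩
  intro δ hδ hδ0 ι J Θ _ _ _ _ E w t hne hcard hw hdeg hco hι hΘ ht
  obtain ⟨p1, p2, p3, p4⟩ := hpar δ hδ hδ0
  set K : ℝ := (k : ℝ) + 1 with hKdef
  set γ' : ℝ := min γ 1 with hγ'def
  set mu : ℝ := C1 * δ with hmu
  have hmu0 : 0 < mu := by positivity
  have hsd : 0 < √δ := Real.sqrt_pos.mpr hδ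
  have hKe : 0 < Th * (K * √δ) := by positivity
  set h : ℝ := min 1 (min (mu / 2) (min (1 / (2 * (Fintype.card ι : ℝ) + 1)) (Th * (K * √δ) / 2))) with hh
  have hh0 : 0 < h := by
    rw [hh]
    refine lt_min one_pos (lt_min (by positivity) (lt_min (by positivity) (by positivity)))
  have hh1 : h ≤ 1 := min_le_left _ _
  have hh2 : h ≤ mu / 2 := (min_le_right _ _).trans (min_le_left _ _)
  have hh3 : h ≤ 1 / (2 * (Fintype.card ι : ℝ) + 1) :=
    (min_le_right _ _).trans ((min_le_right _ _).trans (min_le_left _ _))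
  have hh4 : h ≤ Th * (K * √δ) / 2 :=
    (min_le_right _ _).trans ((min_le_right _ _).trans (min_le_right _ _))
  set R : ℕ := ⌈s / h⌉₊ with hR
  have hR1 : s ≤ h * R := by
    have := Nat.le_ceil (s / h)
    rw [div_le_iff₀ hh0] at this
    linarith
  have hR2 : h * R ≤ s + 1 := by
    have := Nat.ceil_lt_add_one (show 0 ≤ s / h by positivity)
    rw [← hR] at this
    have e1 : h * R ≤ h * (s / h + 1) := by gcongr
    have e2 : h * (s / h + 1) = s + h := by field_simp
    linarith
  obtain ⟨q1, q2, q3, q4⟩ := p4 h hh0 hh1 R hR1 hR2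
  -- the extended hypergraph
  have hwE : ∀ e, 0 ≤ wE E w e := by
    intro e
    cases e with
    | inl j => exact j.2.le
    | inr x => simp only [wE, Sum.elim_inr]; have := hdeg x; linarith
  have hcE : ∀ e, ((incE E w e).card : ℝ) ≤ K := by
    intro e
    cases e with
    | inl j =>
      simp only [incE, Sum.elim_inl]
      have : ((E j.1).card : ℝ) ≤ k := by exact_mod_cast hcard j.1
      linarith
    | inr x => simp only [incE, Sum.elim_inr, Finset.card_singleton]; push_cast; exact hK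
  have hneE : ∀ e, (incE E w e).Nonempty := by
    intro e
    cases e with
    | inl j => exact hne j.1
    | inr x => exact Finset.singleton_nonempty x
  have hcoE : Codeg (incE E w) (fun e => wE E w e * (1 + h) ^ (R * mm (incE E w) e)) mu := by
    intro x y hxy
    rw [Finset.sum_filter, Fintype.sum_sum_type]
    have e1 : ∑ z : ι, (if x ∈ incE E w (Sum.inr z) ∧ y ∈ incE E w (Sum.inr z) then
        wE E w (Sum.inr z) * (1 + h) ^ (R * mm (incE E w) (Sum.inr z)) else 0) = 0 := by
      refine Finset.sum_eq_zero (fun z _ => ?_)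
      rw [if_neg]
      simp only [incE, Sum.elim_inr, Finset.mem_singleton]
      rintro ⟨rfl, rfl⟩; exact hxy rfl
    rw [e1, add_zero]
    have e2 : ∑ j : {j : J // 0 < w j}, (if x ∈ incE E w (Sum.inl j) ∧ y ∈ incE E w (Sum.inl j) then
        wE E w (Sum.inl j) * (1 + h) ^ (R * mm (incE E w) (Sum.inl j)) else 0) ≤
        ∑ j : {j : J // 0 < w j}, (if x ∈ E j.1 ∧ y ∈ E j.1 then C1 * w j.1 else 0) := by
      refine Finset.sum_le_sum (fun j _ => ?_)
      have e3 := q4 (mm (incE E w) (Sum.inl j)) (mm_le _ K (by linarith) hcE _)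
      have hwj := j.2
      simp only [incE, wE, Sum.elim_inl] at e3 ⊢
      split_ifs
      · rw [mul_comm]; gcongr
      · exact le_rfl
    refine e2.trans ?_
    rw [sub_sum w hw (fun j => x ∈ E j ∧ y ∈ E j) (fun j => C1 * w j) (fun j hj => by simp only [hj, mul_zero]),
      ← Finset.mul_sum]
    have := hco x y hxy
    rw [hmu]
    gcongr
  have hdegE : ∀ x, ∑ e ∈ univ.filter (fun e => x ∈ incE E w e), wE E w e = 1 := by
    intro x
    rw [Finset.sum_filter, Fintype.sum_sum_type]
    have e1 : ∑ z : ι, (if x ∈ incE E w (Sum.inr z) then wE E w (Sum.inr z) else 0) =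
        1 - ∑ j ∈ univ.filter (fun j => x ∈ E j), w j := by
      simp only [incE, wE, Sum.elim_inr, Finset.mem_singleton]
      rw [Finset.sum_ite_eq]
      simp
    rw [e1]
    simp only [incE, wE, Sum.elim_inl]
    rw [sub_sum w hw (fun j => x ∈ E j) w (fun j hj => hj)]
    ring
  have homE : ∀ x, 1 - ∑ j ∈ univ.filter (fun j => x ∈ E j), w j =
      ∑ e ∈ univ.filter (fun e => x ∈ incE E w e ∧ e.isRight = true), wE E w e := by
    intro x
    symm
    rw [Finset.sum_filter (s := (univ : Finset (EE ι w))), Fintype.sum_sum_type]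
    have e1 : ∑ z : ι, (if x ∈ incE E w (Sum.inr z) ∧ (Sum.inr z : EE ι w).isRight = true then
        wE E w (Sum.inr z) else 0) = 1 - ∑ j ∈ univ.filter (fun j => x ∈ E j), w j := by
      simp only [incE, wE, Sum.elim_inr, Finset.mem_singleton, Sum.isRight_inr, and_true]
      rw [Finset.sum_ite_eq]
      simp
    rw [e1]
    simp
  have hdmE : ∀ e : EE ι w, e.isRight = true → (incE E w e).card ≤ 1 := by
    intro e he
    cases e with
    | inl j => simp at he
    | inr x => simp [incE]
  -- the tests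
  have hs0 : (0 : ℝ) < √(δ⁻¹) := Real.sqrt_pos.mpr (by positivity)
  have hsinv : √δ * √(δ⁻¹) = 1 := by
    rw [← Real.sqrt_mul hδ.le, mul_inv_cancel₀ hδ.ne', Real.sqrt_one]
  have hτ0 : ∀ θ, 0 ≤ ∑ x, t θ x := fun θ => Finset.sum_nonneg (fun x _ => (ht θ x).1)
  have hτ' : ∀ θ, 0 < ∑ x, t θ x + √(δ⁻¹) := fun θ => by have := hτ0 θ; linarith
  set g : Θ → ι → ℝ := fun θ x => t θ x / (∑ x, t θ x + √(δ⁻¹)) with hg
  have hg0 : ∀ θ x, 0 ≤ g θ x := fun θ x => div_nonneg (ht θ x).1 (hτ' θ).le
  have hgeps : ∀ θ x, g θ x ≤ √δ := by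
    intro θ x
    rw [hg]
    simp only
    rw [div_le_iff₀ (hτ' θ)]
    have := (ht θ x).2
    have := hτ0 θ
    nlinarith
  have hg1 : ∀ θ, ∑ x, g θ x ≤ 1 := by
    intro θ
    rw [hg]
    simp only
    rw [← Finset.sum_div, div_le_one (hτ' θ)]
    linarith
  have hstart : 2 * (Fintype.card ι : ℝ) * Real.exp (-(beta / (40 * K * (C1 * δ)) * beta)) +
      2 * (Fintype.card Θ : ℝ) * Real.exp (-(beta / (12 * Th * K * √δ) * beta)) < 1 := by
    have e1 : 2 * (Fintype.card ι : ℝ) * Real.exp (-(beta / (40 * K * (C1 * δ)) * beta)) ≤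
        2 * δ⁻¹ ^ A * Real.exp (-(beta / (40 * K * (C1 * δ)) * beta)) := by gcongr
    have e2 : 2 * (Fintype.card Θ : ℝ) * Real.exp (-(beta / (12 * Th * K * √δ) * beta)) ≤
        2 * δ⁻¹ ^ A * Real.exp (-(beta / (12 * Th * K * √δ) * beta)) := by gcongr
    linarith
  obtain ⟨M', hM', hout⟩ := outcome (incE E w) (wE E w) (fun e : EE ι w => e.isRight = true)
    (fun x => 1 - ∑ j ∈ univ.filter (fun j => x ∈ E j), w j) g K beta h mu Th
    (beta / (40 * K * (C1 * δ))) (beta / (12 * Th * K * √δ)) (√δ) R hwE hK hcE hneE hh0.le hb.le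
    hmu0.le hcoE (q3.trans (by have := min_le_right γ 1; linarith)) (by linarith)
    (by
      have : K * h ≤ K * (mu / 2) := by gcongr
      linarith)
    (by
      rw [le_div_iff₀ (by positivity)] at hh3
      nlinarith)
    q1 hdmE homE hdegE hg0 hsd.le hgeps hg1 (by positivity) (by positivity)
    (by
      apply le_of_eq
      rw [hmu]
      field_simp)
    (by
      have e1 : 2 * h + Th * (K * √δ) ≤ 2 * (Th * (K * √δ)) := by linarith
      have e2 : beta / (12 * Th * K * √δ) * (2 * (Th * (K * √δ))) * 6 = beta := by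
        field_simp
        norm_num
      calc beta / (12 * Th * K * √δ) * (2 * h + Th * (K * √δ)) * 6
          ≤ beta / (12 * Th * K * √δ) * (2 * (Th * (K * √δ))) * 6 := by gcongr
        _ = beta := e2)
    hstart
  refine ⟨univ.filter (fun j => ∃ hj : 0 < w j, (Sum.inl ⟨j, hj⟩ : EE ι w) ∈ M'), ?_, ?_, ?_⟩
  · intro j hj
    rw [Finset.mem_filter] at hj
    exact hj.2.choose
  · intro i hi j hj hij
    rw [Finset.mem_filter] at hi hj
    obtain ⟨_, hi1, hi2⟩ := hi
    obtain ⟨_, hj1, hj2⟩ := hj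
    exact hM' _ hi2 _ hj2 (fun hc => hij (by
      have := Sum.inl.inj hc
      exact congrArg Subtype.val this))
  · intro θ
    obtain ⟨o1, o2⟩ := hout θ
    set τ' : ℝ := ∑ x, t θ x + √(δ⁻¹) with hτ'def
    have hτpos := hτ' θ
    have htg : ∀ x, t θ x = τ' * g θ x := by
      intro x
      rw [hg]
      simp only
      rw [← hτ'def, mul_div_cancel₀]
      exact hτpos.ne'
    have hsub : univ.filter (fun x => ∀ j ∈ univ.filter
        (fun j => ∃ hj : 0 < w j, (Sum.inl ⟨j, hj⟩ : EE ι w) ∈ M'), x ∉ E j) ⊆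
        Alv (incE E w) M' ∪ Zed (incE E w) (fun e : EE ι w => e.isRight = true) M' := by
      intro x hx
      rw [Finset.mem_filter] at hx
      rw [Finset.mem_union]
      by_cases hA : x ∈ Alv (incE E w) M'
      · exact Or.inl hA
      · right
        unfold Alv at hA
        rw [Finset.mem_sdiff] at hA
        push Not at hA
        have := hA (Finset.mem_univ x)
        rw [Finset.mem_biUnion] at this
        obtain ⟨e, he, hxe⟩ := this
        unfold Zed
        rw [Finset.mem_biUnion]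
        cases e with
        | inl j =>
          exfalso
          exact hx.2 j.1 (by
            rw [Finset.mem_filter]
            exact ⟨Finset.mem_univ _, j.2, he⟩) hxe
        | inr z => exact ⟨Sum.inr z, Finset.mem_filter.mpr ⟨he, rfl⟩, hxe⟩
    have h1 : ∑ x ∈ univ.filter (fun x => ∀ j ∈ univ.filter
        (fun j => ∃ hj : 0 < w j, (Sum.inl ⟨j, hj⟩ : EE ι w) ∈ M'), x ∉ E j), t θ x ≤
        τ' * (∑ x ∈ Alv (incE E w) M', g θ x +
          ∑ x ∈ Zed (incE E w) (fun e : EE ι w => e.isRight = true) M', g θ x) := by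
      refine (Finset.sum_le_sum_of_subset_of_nonneg hsub (fun x _ _ => (ht θ x).1)).trans ?_
      rw [Finset.sum_union (Alv_Zed (incE E w) _ M'), mul_add, Finset.mul_sum, Finset.mul_sum]
      refine le_of_eq ?_
      congr 1 <;> exact Finset.sum_congr rfl (fun x _ => htg x)
    have hA1 : ∑ x ∈ Alv (incE E w) M', g θ x ≤ γ' / 2 := by
      have e1 : (4 / γ') * ∑ x ∈ Alv (incE E w) M', g θ x ≤ 3 / 2 := by
        have e0 : 0 ≤ ∑ x ∈ Alv (incE E w) M', g θ x := Finset.sum_nonneg (fun x _ => hg0 θ x)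
        have e2 : (4 / γ') * ∑ x ∈ Alv (incE E w) M', g θ x ≤
            (1 + h) ^ R * ∑ x ∈ Alv (incE E w) M', g θ x := by gcongr
        have := min_le_right γ 1
        linarith
      rw [div_mul_eq_mul_div, div_le_iff₀ hγ'] at e1
      linarith
    have h2 : ∑ x, g θ x * (1 - ∑ j ∈ univ.filter (fun j => x ∈ E j), w j) * τ' =
        ∑ x, t θ x * (1 - ∑ j ∈ univ.filter (fun j => x ∈ E j), w j) := by
      refine Finset.sum_congr rfl (fun x _ => ?_)
      rw [htg x]; ring
    have h3 : ∑ x ∈ Alv (incE E w) M', g θ x +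
          ∑ x ∈ Zed (incE E w) (fun e : EE ι w => e.isRight = true) M', g θ x ≤
        ∑ x, g θ x * (1 - ∑ j ∈ univ.filter (fun j => x ∈ E j), w j) + γ' := by
      linarith
    have h4 : τ' * (∑ x ∈ Alv (incE E w) M', g θ x +
          ∑ x ∈ Zed (incE E w) (fun e : EE ι w => e.isRight = true) M', g θ x) ≤
        τ' * (∑ x, g θ x * (1 - ∑ j ∈ univ.filter (fun j => x ∈ E j), w j) + γ') := by
      gcongr
    have h5 : γ' * τ' ≤ γ * τ' := by
      have := min_le_left γ 1
      gcongr
    rw [← Finset.sum_mul] at h2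
    refine le_trans (le_of_eq ?_) (h1.trans (h4.trans ?_))
    · refine Finset.sum_congr ?_ (fun _ _ => rfl)
      ext x
      simp only [Finset.mem_filter]
    · rw [← h2]
      linarith

end Nib
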